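import Pool.Agent.R385.DT.Main

/-!
# All scales at the same time
-/

set_option autoImplicit false

namespace Pool.Agent.R385.DT

open Filter Topology Finset Pool.Agent.W350.Edge Pool.Agent.R385.MC Polynomial

lemma geo_le {x : ℝ} (hx0 : 0 ≤ x) (hx1 : x < 1) (j : ℕ) : ∑ i ∈ range j, x ^ i ≤ 1 / (1 - x) := by
  have h1 := (summable_geometric_of_lt_one hx0 hx1).sum_le_tsum (range j) fun i _ => pow_nonneg hx0 i
  rw [tsum_geometric_of_lt_one hx0 hx1] at h1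
  rwa [one_div]

/-- Steps. -/
lemma steps {G : ℕ → ℂ} {θ : ℕ → ℝ} {J : ℕ} (h : ∀ j < J, ‖G (j + 1) - G j‖ ≤ θ j) :
    ∀ j ≤ J, ‖G j - G 0‖ ≤ ∑ i ∈ range j, θ i := by
  intro j
  induction j with
  | zero => intro _; simp
  | succ j ih =>
    intro hj
    rw [sum_range_succ]
    have h1 := ih (by omega)
    have h2 := h j (by omega)
    calc ‖G (j + 1) - G 0‖ = ‖(G j - G 0) + (G (j + 1) - G j)‖ := by congr 1; ring
      _ ≤ ‖G j - G 0‖ + ‖G (j + 1) - G j‖ := norm_add_le _ _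
      _ ≤ _ := add_le_add h1 h2

/-- The variation inside a scale. -/
lemma inside {q : ℕ} {a : ℕ → ℂ} {D : ℝ} (ha : ∀ n, ‖a n‖ ≤ D) (χ : DirichletCharacter ℂ q) (τ : ℝ)
    {ε₁ ε₂ : ℝ} (h1 : 0 < ε₁) (h12 : ε₁ ≤ ε₂) :
    ‖Gs a χ τ ε₁ - Gs a χ τ ε₂‖ ≤ D * ∑' n, WW ε₁ ε₂ n := by
  rw [Gs_sub ha χ τ h1 h12]
  refine tsum_of_norm_bounded ((WW_summable h1 h12).hasSum.mul_left D) fun n => ?_
  have hD : 0 ≤ D := (norm_nonneg _).trans (ha 0)
  rw [norm_mul, norm_mul, Complex.norm_real, Real.norm_of_nonneg (WW_nonneg h12 n), mul_comm]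
  refine mul_le_mul_of_nonneg_right ?_ (WW_nonneg h12 n)
  exact (mul_le_of_le_one_right (norm_nonneg _) (norm_xt χ τ n)).trans (ha n)

/-- **The sums over the primes at all scales.** -/
theorem all_G (N : ℕ) {η κ : ℝ} (hη : 0 < η) (hκ : 0 < κ) : ∃ Q₀ : ℕ, 8 ≤ Q₀ ∧ ∀ Q : ℕ, Q₀ ≤ Q →
    ∀ a : ℕ → ℂ, (∀ n, ‖a n‖ ≤ N) → ∃ E : Finset Ch, (E.card : ℝ) ≤ (Q : ℝ) ^ κ ∧
    ∀ x : Ch, IsPr Q x → x ∉ E → ∀ τ : ℝ, |τ| ≤ Q → ∀ ε : ℝ, Real.exp (-(Q : ℝ) ^ (κ / 4)) ≤ ε →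
      ε ≤ (Real.log Q ^ 19)⁻¹ →
      ‖Gs a x.2 τ ε - Gs a x.2 τ (Real.log Q ^ 19)⁻¹‖ ≤ 3 * η := by
  classical
  obtain ⟨K, c, r, hK, hc, hr, hcount⟩ := scale_count
  set η₁ : ℝ := min 1 (η / (2 * (N + 1))) with hη₁
  have hη₁0 : 0 < η₁ := by positivity
  have hη₁1 : η₁ ≤ 1 := min_le_left _ _
  have hN0 : (0 : ℝ) ≤ N := Nat.cast_nonneg N
  have hη₁N : N * (2 * η₁) ≤ η := by
    have h1 : η₁ ≤ η / (2 * (N + 1)) := min_le_right _ _
    rw [le_div_iff₀ (by positivity)] at h1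
    nlinarith
  obtain ⟨r', hr', hmass⟩ := mass hη₁0
  set x₀ := Real.exp (-η₁ / 2) with hx₀
  have hx₀0 : 0 < x₀ := Real.exp_pos _
  have hx₀1 : x₀ < 1 := by
    rw [hx₀, Real.exp_lt_one_iff]
    linarith
  set b₀ : ℝ := 2 * N / (1 - x₀) / η with hb₀
  have htQ : Tendsto (fun Q : ℕ => (Q : ℝ) ^ (κ / 4)) atTop atTop :=
    (tendsto_rpow_atTop (by positivity)).comp tendsto_natCast_atTop_atTop
  have hev : ∀ᶠ Q : ℕ in atTop, (8 ≤ Q ∧ max (max c⁻¹ r⁻¹) (max r'⁻¹ (K * b₀ ^ 2)) ≤ Real.log Q) ∧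
      max 1 (16 * (N : ℝ) ^ 2 * (8 / η₁ ^ 3) / η ^ 2) ≤ (Q : ℝ) ^ (κ / 4) :=
    ((eventually_ge_atTop 8).and (tend_log.eventually_ge_atTop _)).and (htQ.eventually_ge_atTop _)
  obtain ⟨Q₀, hQ₀⟩ := eventually_atTop.1 hev
  refine ⟨max Q₀ 8, le_max_right _ _, ?_⟩
  intro Q hQ a ha
  obtain ⟨⟨hQ8, hL⟩, hQκ⟩ := hQ₀ Q ((le_max_left _ _).trans hQ)
  set L := Real.log Q with hLd
  have hL1 : 1 ≤ L := by
    have := four_le hQ8
    linarith
  have hL0 : 0 < L := by linarith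
  have hQ0 : (0 : ℝ) < Q := by
    have : 0 < Q := by omega
    exact_mod_cast this
  have hLc : c⁻¹ ≤ L := ((le_max_left _ _).trans (le_max_left _ _)).trans hL
  have hLr : r⁻¹ ≤ L := ((le_max_right _ _).trans (le_max_left _ _)).trans hL
  have hLr' : r'⁻¹ ≤ L := ((le_max_left _ _).trans (le_max_right _ _)).trans hL
  have hLb : K * b₀ ^ 2 ≤ L := ((le_max_right _ _).trans (le_max_right _ _)).trans hL
  have hQκ1 : 1 ≤ (Q : ℝ) ^ (κ / 4) := (le_max_left _ _).trans hQκ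
  have hQκ2 : 16 * (N : ℝ) ^ 2 * (8 / η₁ ^ 3) / η ^ 2 ≤ (Q : ℝ) ^ (κ / 4) :=
    (le_max_right _ _).trans hQκ
  obtain ⟨hp1, hp2⟩ := pow19 hL1
  set ε₀ := (L ^ 19)⁻¹ with hε₀
  have hε₀0 : 0 < ε₀ := by positivity
  have hcc : L⁻¹ ≤ c := inv_le_of_inv_le₀ hc hLc
  have hε₀r : ε₀ ≤ r := hp2.trans (inv_le_of_inv_le₀ hr hLr)
  have hε₀r' : ε₀ ≤ r' := hp2.trans (inv_le_of_inv_le₀ hr' hLr')
  -- the grid
  set J := ⌈(Q : ℝ) ^ (κ / 4) / η₁⌉₊ with hJ
  have hJ1 : (Q : ℝ) ^ (κ / 4) / η₁ ≤ J := Nat.le_ceil _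
  have hJ2 : (J : ℝ) ≤ 2 * ((Q : ℝ) ^ (κ / 4) / η₁) := by
    have h1 := Nat.ceil_lt_add_one (by positivity : 0 ≤ (Q : ℝ) ^ (κ / 4) / η₁)
    have h2 : 1 ≤ (Q : ℝ) ^ (κ / 4) / η₁ := by
      rw [le_div_iff₀ hη₁0]
      linarith
    linarith
  have hJ0 : (0 : ℝ) < J := by
    have : 0 < (Q : ℝ) ^ (κ / 4) / η₁ := by positivity
    linarith
  set e : ℕ → ℝ := fun j => ε₀ * Real.exp (-(η₁ * j)) with he
  have he0 : ∀ j, 0 < e j := fun j => by positivity
  have hanti : ∀ j, e (j + 1) ≤ e j := by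
    intro j
    rw [he]
    simp only
    refine mul_le_mul_of_nonneg_left (Real.exp_le_exp.2 ?_) hε₀0.le
    push_cast
    nlinarith
  have hle : ∀ j, e j ≤ ε₀ := by
    intro j
    rw [he]
    simp only
    refine mul_le_of_le_one_right hε₀0.le ?_
    rw [Real.exp_le_one_iff]
    have : 0 ≤ η₁ * j := by positivity
    linarith
  set bb : ℕ → ℝ := fun j => 2 * N * Real.sqrt (K / L) * x₀ ^ j with hbb
  have hbb0 : ∀ j, 0 ≤ bb j := fun j => by positivity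
  set θ : ℕ → ℝ := fun j => η / J + bb j with hθ
  have hθ0 : ∀ j, 0 < θ j := by
    intro j
    rw [hθ]
    have := hbb0 j
    positivity
  have hθη : ∀ j, η / J ≤ θ j := by
    intro j
    rw [hθ]
    simp only
    linarith [hbb0 j]
  have heL : ∀ j, e j * L ^ 18 = L⁻¹ * (x₀ ^ j) ^ 2 := by
    intro j
    rw [he]
    simp only
    rw [hx₀, ← Real.exp_nat_mul, ← Real.exp_nat_mul, mul_right_comm, hp1]
    congr 2
    push_cast
    ring
  have hE : ∀ j : ℕ, ∃ E : Finset Ch, (E.card : ℝ) ≤ 16 * (N : ℝ) ^ 2 / θ j ^ 2 ∧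
      ∀ x ∈ {x : Ch | IsPr Q x ∧ ∃ τ : ℝ, |τ| ≤ Q ∧
        θ j ≤ ‖Gs a x.2 τ (e (j + 1)) - Gs a x.2 τ (e j)‖}, x ∈ E := by
    intro j
    refine exE fun R hR => hcount Q hQ8 a N ha (e (j + 1)) (e j) (he0 _) (hanti j)
      ((hle j).trans hε₀r) ?_ ?_ (θ j) (hθ0 j) ?_ R hR
    · rw [he]
      simp only
      have h1 : Real.exp 1 * (ε₀ * Real.exp (-(η₁ * ((j + 1 : ℕ) : ℝ)))) =
          ε₀ * Real.exp (1 - η₁ * ((j + 1 : ℕ) : ℝ)) := by
        rw [sub_eq_add_neg, Real.exp_add]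
        ring
      rw [h1]
      refine mul_le_mul_of_nonneg_left (Real.exp_le_exp.2 ?_) hε₀0.le
      push_cast
      linarith
    · refine le_trans ?_ hcc
      rw [heL]
      refine mul_le_of_le_one_right (by positivity) ?_
      exact pow_le_one₀ (by positivity) (pow_le_one₀ hx₀0.le hx₀1.le)
    · rw [heL]
      have h1 : 4 * (N : ℝ) ^ 2 * (K * (L⁻¹ * (x₀ ^ j) ^ 2)) = bb j ^ 2 := by
        rw [hbb]
        simp only
        rw [mul_pow, mul_pow, mul_pow, Real.sq_sqrt (by positivity)]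
        field_simp
        ring
      rw [h1]
      refine pow_le_pow_left₀ (hbb0 j) ?_ 2
      rw [hθ]
      have : 0 ≤ η / J := by positivity
      linarith
  choose E hEc hEx using hE
  refine ⟨(range J).biUnion E, ?_, ?_⟩
  · calc (((range J).biUnion E).card : ℝ) ≤ ((∑ j ∈ range J, (E j).card : ℕ) : ℝ) := by
          exact_mod_cast card_biUnion_le
      _ = ∑ j ∈ range J, ((E j).card : ℝ) := by push_cast; rfl
      _ ≤ ∑ j ∈ range J, 16 * (N : ℝ) ^ 2 / (η / J) ^ 2 := by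
          refine sum_le_sum fun j _ => (hEc j).trans ?_
          refine div_le_div_of_nonneg_left (by positivity) (by positivity) ?_
          exact pow_le_pow_left₀ (by positivity) (hθη j) 2
      _ = 16 * (N : ℝ) ^ 2 * (J : ℝ) ^ 3 / η ^ 2 := by
          rw [sum_const, card_range, nsmul_eq_mul]
          field_simp
      _ ≤ 16 * (N : ℝ) ^ 2 * (2 * ((Q : ℝ) ^ (κ / 4) / η₁)) ^ 3 / η ^ 2 := by gcongr
      _ = (16 * (N : ℝ) ^ 2 * (8 / η₁ ^ 3) / η ^ 2) * ((Q : ℝ) ^ (κ / 4)) ^ 3 := by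
          field_simp
          ring
      _ ≤ (Q : ℝ) ^ (κ / 4) * ((Q : ℝ) ^ (κ / 4)) ^ 3 := by gcongr
      _ = (Q : ℝ) ^ κ := by
          rw [← pow_succ', ← Real.rpow_natCast, ← Real.rpow_mul hQ0.le]
          congr 1
          push_cast
          ring
  · intro x hx hxE τ hτ ε hε1 hε2
    have hε0 : 0 < ε := (Real.exp_pos _).trans_le hε1
    have hstep : ∀ j < J, ‖Gs a x.2 τ (e (j + 1)) - Gs a x.2 τ (e j)‖ ≤ θ j := by
      intro j hj
      by_contra hcon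
      refine hxE (mem_biUnion.2 ⟨j, mem_range.2 hj, hEx j x ⟨hx, τ, hτ, (not_le.1 hcon).le⟩⟩)
    -- the position of `ε`
    set y := Real.log (ε₀ / ε) / η₁ with hy
    have hy0 : 0 ≤ y := by
      refine div_nonneg (Real.log_nonneg ?_) hη₁0.le
      rw [le_div_iff₀ hε0, one_mul]
      exact hε2
    have hyJ : y ≤ J := by
      refine le_trans ?_ hJ1
      refine div_le_div_of_nonneg_right ?_ hη₁0.le
      rw [Real.log_div hε₀0.ne' hε0.ne']
      have h1 : -(Q : ℝ) ^ (κ / 4) ≤ Real.log ε := by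
        rw [← Real.log_exp (-(Q : ℝ) ^ (κ / 4))]
        exact Real.log_le_log (Real.exp_pos _) hε1
      have h2 : Real.log ε₀ ≤ 0 := by
        refine Real.log_nonpos hε₀0.le (hp2.trans ?_)
        exact inv_le_one_of_one_le₀ hL1
      linarith
    set j := ⌊y⌋₊ with hj
    have hj1 : (j : ℝ) ≤ y := Nat.floor_le hy0
    have hj2 : y < j + 1 := Nat.lt_floor_add_one y
    have hjJ : j ≤ J := by
      have : (j : ℝ) ≤ J := hj1.trans hyJ
      exact_mod_cast this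
    have hlogε : Real.log (ε₀ / ε) = η₁ * y := by
      rw [hy]
      field_simp
    have hεe : ε = ε₀ * Real.exp (-(η₁ * y)) := by
      rw [← hlogε, Real.exp_neg, Real.exp_log (by positivity)]
      field_simp
    have hεj : ε ≤ e j := by
      rw [hεe, he]
      simp only
      refine mul_le_mul_of_nonneg_left (Real.exp_le_exp.2 ?_) hε₀0.le
      nlinarith
    have h1 : ‖Gs a x.2 τ ε - Gs a x.2 τ (e j)‖ ≤ η := by
      refine (inside ha x.2 τ hε0 hεj).trans ?_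
      refine le_trans (mul_le_mul_of_nonneg_left (hmass ε (e j) hε0 hεj ((hle j).trans hε₀r'))
        hN0) ?_
      refine le_trans (mul_le_mul_of_nonneg_left ?_ hN0) hη₁N
      have h2 : Real.log (e j / ε) = η₁ * y - η₁ * j := by
        rw [Real.log_div (he0 j).ne' hε0.ne', he]
        simp only
        rw [Real.log_mul hε₀0.ne' (Real.exp_pos _).ne', Real.log_exp]
        have := hlogε
        rw [Real.log_div hε₀0.ne' hε0.ne'] at this
        linarith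
      rw [h2]
      nlinarith
    have h2 := steps (G := fun j => Gs a x.2 τ (e j)) hstep j hjJ
    have he00 : e 0 = ε₀ := by
      rw [he]
      simp
    simp only [he00] at h2
    have h3 : ∑ i ∈ range j, θ i ≤ 2 * η := by
      rw [hθ, sum_add_distrib, sum_const, card_range, nsmul_eq_mul]
      have h4 : (j : ℝ) * (η / J) ≤ η := by
        have h5 : (j : ℝ) ≤ J := by exact_mod_cast hjJ
        calc (j : ℝ) * (η / J) ≤ J * (η / J) := by gcongr
          _ = η := by field_simp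
      have h5 : ∑ i ∈ range j, bb i ≤ η := by
        rw [hbb, ← mul_sum]
        have h6 := geo_le hx₀0.le hx₀1 j
        have h7 : Real.sqrt (K / L) * b₀ ≤ 1 := by
          have hb₀0 : 0 ≤ b₀ := by
            have : 0 < 1 - x₀ := by linarith
            positivity
          rw [← Real.sqrt_sq hb₀0, ← Real.sqrt_mul (by positivity), ← Real.sqrt_one]
          refine Real.sqrt_le_sqrt ?_
          rw [div_mul_eq_mul_div, div_le_one hL0]
          exact hLb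
        calc 2 * N * Real.sqrt (K / L) * ∑ i ∈ range j, x₀ ^ i
            ≤ 2 * N * Real.sqrt (K / L) * (1 / (1 - x₀)) := by gcongr
          _ = η * (Real.sqrt (K / L) * b₀) := by
            rw [hb₀]
            have : 1 - x₀ ≠ 0 := by linarith
            field_simp
          _ ≤ η * 1 := by gcongr
          _ = η := mul_one η
      linarith
    calc ‖Gs a x.2 τ ε - Gs a x.2 τ ε₀‖ = ‖(Gs a x.2 τ ε - Gs a x.2 τ (e j)) +
          (Gs a x.2 τ (e j) - Gs a x.2 τ ε₀)‖ := by congr 1; ring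
      _ ≤ ‖Gs a x.2 τ ε - Gs a x.2 τ (e j)‖ + ‖Gs a x.2 τ (e j) - Gs a x.2 τ ε₀‖ :=
        norm_add_le _ _
      _ ≤ η + 2 * η := add_le_add h1 (h2.trans h3)
      _ = 3 * η := by ring

end Pool.Agent.R385.DT
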