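import Mathlib

/-!
# Bessel's inequality with weights
-/

set_option autoImplicit false

namespace Pool.Agent.R385.DT

open Finset

variable {ι : Type}

lemma wsum {W : ℕ → ℝ} (hW : ∀ n, 0 ≤ W n) (hWs : Summable W) {f : ℕ → ℂ} {C : ℝ}
    (hf : ∀ n, ‖f n‖ ≤ C) : Summable fun n => (W n : ℂ) * f n := by
  refine Summable.of_norm_bounded (hWs.mul_right C) fun n => ?_
  rw [norm_mul, Complex.norm_real, Real.norm_of_nonneg (hW n)]
  exact mul_le_mul_of_nonneg_left (hf n) (hW n)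

lemma wsumr {W : ℕ → ℝ} (hW : ∀ n, 0 ≤ W n) (hWs : Summable W) {f : ℕ → ℝ} {C : ℝ}
    (hf0 : ∀ n, 0 ≤ f n) (hf : ∀ n, f n ≤ C) : Summable fun n => W n * f n := by
  refine Summable.of_nonneg_of_le (fun n => mul_nonneg (hW n) (hf0 n)) (fun n => ?_)
    (hWs.mul_right C)
  exact mul_le_mul_of_nonneg_left (hf n) (hW n)

/-- Cauchy's inequality with weights. -/
lemma cauchy {W : ℕ → ℝ} (hW : ∀ n, 0 ≤ W n) (hWs : Summable W) {f : ℕ → ℝ} {C : ℝ}
    (hf0 : ∀ n, 0 ≤ f n) (hf : ∀ n, f n ≤ C) :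
    (∑' n, W n * f n) ^ 2 ≤ (∑' n, W n) * ∑' n, W n * f n ^ 2 := by
  have h1 := wsumr hW hWs hf0 hf
  have h2 : Summable fun n => W n * f n ^ 2 :=
    wsumr hW hWs (fun n => sq_nonneg _) (C := C ^ 2) fun n => pow_le_pow_left₀ (hf0 n) (hf n) 2
  set A := ∑' n, W n with hA
  set S := ∑' n, W n * f n with hS
  set B := ∑' n, W n * f n ^ 2 with hB
  have hA0 : 0 ≤ A := tsum_nonneg hW
  have key : ∀ s : ℝ, 0 ≤ B - 2 * s * S + s ^ 2 * A := by
    intro s
    have h3 : B - 2 * s * S + s ^ 2 * A = ∑' n, W n * (f n - s) ^ 2 := by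
      rw [hB, hS, hA, ← tsum_mul_left, ← tsum_mul_left, ← h2.tsum_sub (h1.mul_left _),
        ← (h2.sub (h1.mul_left (2 * s))).tsum_add (hWs.mul_left _)]
      refine tsum_congr fun n => ?_
      ring
    rw [h3]
    exact tsum_nonneg fun n => mul_nonneg (hW n) (sq_nonneg _)
  rcases hA0.eq_or_lt with h4 | h4
  · have hW0 : ∀ n, W n = 0 := by
      intro n
      have h5 := hWs.le_tsum n fun m _ => hW m
      rw [← hA, ← h4] at h5
      exact le_antisymm h5 (hW n)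
    have h6 : S = 0 := by
      rw [hS]
      simp [hW0]
    rw [h6, ← h4]
    simp
  · have h5 := key (S / A)
    have h6 : B - 2 * (S / A) * S + (S / A) ^ 2 * A = B - S ^ 2 / A := by
      field_simp
      ring
    rw [h6, sub_nonneg, div_le_iff₀ h4] at h5
    linarith

/-- **Bessel's inequality.** -/
theorem bessel (R : Finset ι) {W : ℕ → ℝ} (hW : ∀ n, 0 ≤ W n) (hWs : Summable W)
    (x : ι → ℕ → ℂ) (hx : ∀ i n, ‖x i n‖ ≤ 1) (a : ℕ → ℂ) {N : ℝ} (ha : ∀ n, ‖a n‖ ≤ N) :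
    (∑ i ∈ R, ‖∑' n, (W n : ℂ) * (a n * x i n)‖) ^ 2 ≤
      N ^ 2 * (∑' n, W n) *
        ∑ i ∈ R, ∑ j ∈ R, ‖∑' n, (W n : ℂ) * (x i n * (starRingEnd ℂ) (x j n))‖ := by
  have hN : 0 ≤ N := (norm_nonneg _).trans (ha 0)
  set T : ι → ℂ := fun i => ∑' n, (W n : ℂ) * (a n * x i n) with hT
  set c : ι → ℂ := fun i => if T i = 0 then 0 else (starRingEnd ℂ) (T i) / ‖T i‖ with hc
  have hcT : ∀ i, c i * T i = ‖T i‖ := by
    intro i
    rw [hc]
    simp only
    split_ifs with h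
    · rw [h]
      simp
    · have h1 : (‖T i‖ : ℂ) ≠ 0 := by
        exact_mod_cast norm_ne_zero_iff.2 h
      rw [div_mul_eq_mul_div, mul_comm ((starRingEnd ℂ) (T i)), Complex.mul_conj,
        Complex.normSq_eq_norm_sq]
      push_cast
      field_simp
  have hc1 : ∀ i, ‖c i‖ ≤ 1 := by
    intro i
    rw [hc]
    simp only
    split_ifs with h
    · simp
    · rw [norm_div, RCLike.norm_conj, Complex.norm_real, norm_norm, div_self (norm_ne_zero_iff.2 h)]
  set y : ℕ → ℂ := fun n => ∑ i ∈ R, c i * x i n with hy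
  have hyb : ∀ n, ‖y n‖ ≤ R.card := by
    intro n
    refine (norm_sum_le_of_le R (n := fun _ => (1 : ℝ)) fun i _ => ?_).trans (le_of_eq ?_)
    · rw [norm_mul]
      exact mul_le_one₀ (hc1 i) (norm_nonneg _) (hx i n)
    · simp
  have hax : ∀ i n, ‖a n * x i n‖ ≤ N := by
    intro i n
    rw [norm_mul]
    calc ‖a n‖ * ‖x i n‖ ≤ N * 1 := mul_le_mul (ha n) (hx i n) (norm_nonneg _) hN
      _ = N := mul_one N
  -- the sum of the absolute values
  have h1 : ((∑ i ∈ R, ‖T i‖ : ℝ) : ℂ) = ∑' n, (W n : ℂ) * (a n * y n) := by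
    rw [Complex.ofReal_sum]
    have h2 : ∀ i ∈ R, ((‖T i‖ : ℝ) : ℂ) = ∑' n, (W n : ℂ) * (a n * (c i * x i n)) := by
      intro i _
      rw [← hcT i, hT, ← tsum_mul_left]
      refine tsum_congr fun n => ?_
      ring
    rw [sum_congr rfl h2, ← Summable.tsum_finsetSum]
    · refine tsum_congr fun n => ?_
      rw [hy]
      simp only
      rw [mul_sum, mul_sum]
    · intro i _
      refine wsum hW hWs (C := N) fun n => ?_
      have h3 : a n * (c i * x i n) = c i * (a n * x i n) := by ring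
      rw [h3, norm_mul]
      calc ‖c i‖ * ‖a n * x i n‖ ≤ 1 * N := mul_le_mul (hc1 i) (hax i n) (norm_nonneg _) zero_le_one
        _ = N := one_mul N
  have h2 : ∑ i ∈ R, ‖T i‖ ≤ N * ∑' n, W n * ‖y n‖ := by
    have h3 : ∑ i ∈ R, ‖T i‖ = ‖∑' n, (W n : ℂ) * (a n * y n)‖ := by
      rw [← h1, Complex.norm_real, Real.norm_of_nonneg (sum_nonneg fun i _ => norm_nonneg _)]
    rw [h3, ← tsum_mul_left]
    refine tsum_of_norm_bounded ((wsumr hW hWs (fun n => norm_nonneg (y n)) hyb).mul_left N).hasSum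
      fun n => ?_
    rw [norm_mul, norm_mul, Complex.norm_real, Real.norm_of_nonneg (hW n)]
    calc W n * (‖a n‖ * ‖y n‖) ≤ W n * (N * ‖y n‖) := by
          refine mul_le_mul_of_nonneg_left ?_ (hW n)
          exact mul_le_mul_of_nonneg_right (ha n) (norm_nonneg _)
      _ = N * (W n * ‖y n‖) := by ring
  have h3 : ∑' n, W n * ‖y n‖ ^ 2 ≤
      ∑ i ∈ R, ∑ j ∈ R, ‖∑' n, (W n : ℂ) * (x i n * (starRingEnd ℂ) (x j n))‖ := by
    have h4 : ((∑' n, W n * ‖y n‖ ^ 2 : ℝ) : ℂ) = ∑ i ∈ R, ∑ j ∈ R, c i * (starRingEnd ℂ) (c j) *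
        ∑' n, (W n : ℂ) * (x i n * (starRingEnd ℂ) (x j n)) := by
      rw [Complex.ofReal_tsum]
      have h5 : ∀ i ∈ R, ∑ j ∈ R, c i * (starRingEnd ℂ) (c j) *
          ∑' n, (W n : ℂ) * (x i n * (starRingEnd ℂ) (x j n)) =
          ∑' n, (W n : ℂ) * (c i * x i n * (starRingEnd ℂ) (y n)) := by
        intro i _
        have h6 : ∀ j ∈ R, c i * (starRingEnd ℂ) (c j) *
            ∑' n, (W n : ℂ) * (x i n * (starRingEnd ℂ) (x j n)) =
            ∑' n, (W n : ℂ) * (c i * x i n * (starRingEnd ℂ) (c j * x j n)) := by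
          intro j _
          rw [← tsum_mul_left]
          refine tsum_congr fun n => ?_
          rw [map_mul]
          ring
        rw [sum_congr rfl h6, ← Summable.tsum_finsetSum]
        · refine tsum_congr fun n => ?_
          rw [hy]
          simp only
          rw [map_sum, mul_sum, mul_sum]
        · intro j _
          refine wsum hW hWs (C := 1) fun n => ?_
          rw [norm_mul, norm_mul, RCLike.norm_conj, norm_mul]
          exact mul_le_one₀ (mul_le_one₀ (hc1 i) (norm_nonneg _) (hx i n)) (by positivity)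
            (mul_le_one₀ (hc1 j) (norm_nonneg _) (hx j n))
      rw [sum_congr rfl h5, ← Summable.tsum_finsetSum]
      · refine tsum_congr fun n => ?_
        have h7 : ((‖y n‖ : ℝ) : ℂ) ^ 2 = y n * (starRingEnd ℂ) (y n) := by
          rw [Complex.mul_conj, Complex.normSq_eq_norm_sq]
          push_cast
          rfl
        push_cast
        rw [h7, ← mul_sum, ← sum_mul]
      · intro i _
        refine wsum hW hWs (C := 1 * (R.card : ℝ)) fun n => ?_
        rw [norm_mul, RCLike.norm_conj, norm_mul]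
        exact mul_le_mul (mul_le_one₀ (hc1 i) (norm_nonneg _) (hx i n)) (hyb n) (norm_nonneg _)
          zero_le_one
    have h5 : ∑' n, W n * ‖y n‖ ^ 2 = ‖((∑' n, W n * ‖y n‖ ^ 2 : ℝ) : ℂ)‖ := by
      rw [Complex.norm_real, Real.norm_of_nonneg]
      exact tsum_nonneg fun n => mul_nonneg (hW n) (sq_nonneg _)
    rw [h5, h4]
    refine norm_sum_le_of_le R fun i _ => norm_sum_le_of_le R fun j _ => ?_
    rw [norm_mul, norm_mul, RCLike.norm_conj]
    exact mul_le_of_le_one_left (norm_nonneg _) (mul_le_one₀ (hc1 i) (norm_nonneg _) (hc1 j))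
  have h4 := cauchy hW hWs (fun n => norm_nonneg (y n)) hyb
  have h5 : 0 ≤ ∑ i ∈ R, ‖T i‖ := sum_nonneg fun i _ => norm_nonneg _
  calc (∑ i ∈ R, ‖T i‖) ^ 2 ≤ (N * ∑' n, W n * ‖y n‖) ^ 2 := pow_le_pow_left₀ h5 h2 2
    _ = N ^ 2 * (∑' n, W n * ‖y n‖) ^ 2 := by ring
    _ ≤ N ^ 2 * ((∑' n, W n) * ∑' n, W n * ‖y n‖ ^ 2) :=
        mul_le_mul_of_nonneg_left h4 (sq_nonneg N)
    _ ≤ N ^ 2 * ((∑' n, W n) * ∑ i ∈ R, ∑ j ∈ R,
          ‖∑' n, (W n : ℂ) * (x i n * (starRingEnd ℂ) (x j n))‖) :=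
        mul_le_mul_of_nonneg_left (mul_le_mul_of_nonneg_left h3 (tsum_nonneg hW)) (sq_nonneg N)
    _ = _ := by ring

/-- The number of large values, if every row of the matrix of the correlations has at most two
entries which are not small. -/
theorem count [DecidableEq ι] (R : Finset ι) {W : ℕ → ℝ} (hW : ∀ n, 0 ≤ W n) (hWs : Summable W)
    (x : ι → ℕ → ℂ) (hx : ∀ i n, ‖x i n‖ ≤ 1) (a : ℕ → ℂ) {N : ℝ} (ha : ∀ n, ‖a n‖ ≤ N)
    {A δ η : ℝ} (hA : ∑' n, W n ≤ A) (hδ : 0 ≤ δ) (hη : 0 ≤ η)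
    (hT : ∀ i ∈ R, η ≤ ‖∑' n, (W n : ℂ) * (a n * x i n)‖)
    (hg : ∀ i ∈ R, ∀ j ∈ R, ∀ k ∈ R, i ≠ j → i ≠ k → j ≠ k →
      ‖∑' n, (W n : ℂ) * (x i n * (starRingEnd ℂ) (x j n))‖ ≤ δ ∨
      ‖∑' n, (W n : ℂ) * (x i n * (starRingEnd ℂ) (x k n))‖ ≤ δ) :
    R.card * η ^ 2 ≤ N ^ 2 * A * (2 * A + R.card * δ) := by
  have hA0 : 0 ≤ A := (tsum_nonneg hW).trans hA
  set g : ι → ι → ℝ := fun i j => ‖∑' n, (W n : ℂ) * (x i n * (starRingEnd ℂ) (x j n))‖ with hgd
  have hgA : ∀ i j, g i j ≤ A := by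
    intro i j
    refine le_trans ?_ hA
    refine tsum_of_norm_bounded hWs.hasSum fun n => ?_
    rw [norm_mul, norm_mul, RCLike.norm_conj, Complex.norm_real, Real.norm_of_nonneg (hW n)]
    exact mul_le_of_le_one_right (hW n) (mul_le_one₀ (hx i n) (norm_nonneg _) (hx j n))
  have hrow : ∀ i ∈ R, ∑ j ∈ R, g i j ≤ 2 * A + R.card * δ := by
    intro i hi
    set Z := R.filter fun j => ¬ (g i j ≤ δ) with hZ
    have hZc : Z.card ≤ 2 := by
      by_contra hcon
      push Not at hcon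
      have h1 : 1 < (Z.erase i).card := by
        have := Finset.pred_card_le_card_erase (s := Z) (a := i)
        omega
      obtain ⟨j, hj, k, hk, hjk⟩ := Finset.one_lt_card.1 h1
      rw [mem_erase, hZ, mem_filter] at hj hk
      rcases hg i hi j hj.2.1 k hk.2.1 hj.1.symm hk.1.symm hjk with h2 | h2
      · exact hj.2.2 h2
      · exact hk.2.2 h2
    rw [← sum_filter_add_sum_filter_not R (fun j => ¬ (g i j ≤ δ))]
    refine add_le_add ?_ ?_
    · refine (sum_le_card_nsmul _ _ A fun j _ => hgA i j).trans ?_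
      rw [nsmul_eq_mul]
      refine mul_le_mul_of_nonneg_right ?_ hA0
      exact_mod_cast hZc
    · refine (sum_le_card_nsmul _ _ δ fun j hj => ?_).trans ?_
      · rw [mem_filter, not_not] at hj
        exact hj.2
      · rw [nsmul_eq_mul]
        refine mul_le_mul_of_nonneg_right ?_ hδ
        exact_mod_cast card_filter_le _ _
  have h1 := bessel R hW hWs x hx a ha
  have h2 : (R.card : ℝ) * η ≤ ∑ i ∈ R, ‖∑' n, (W n : ℂ) * (a n * x i n)‖ := by
    rw [← nsmul_eq_mul]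
    exact card_nsmul_le_sum R _ η hT
  have h3 : ∑ i ∈ R, ∑ j ∈ R, g i j ≤ R.card * (2 * A + R.card * δ) := by
    rw [← nsmul_eq_mul]
    exact sum_le_card_nsmul R _ _ hrow
  have h4 : ((R.card : ℝ) * η) ^ 2 ≤ N ^ 2 * A * (R.card * (2 * A + R.card * δ)) := by
    calc ((R.card : ℝ) * η) ^ 2 ≤ (∑ i ∈ R, ‖∑' n, (W n : ℂ) * (a n * x i n)‖) ^ 2 :=
          pow_le_pow_left₀ (by positivity) h2 2
      _ ≤ _ := h1
      _ ≤ N ^ 2 * A * (R.card * (2 * A + R.card * δ)) := by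
        have h5 : 0 ≤ ∑ i ∈ R, ∑ j ∈ R, g i j :=
          sum_nonneg fun i _ => sum_nonneg fun j _ => norm_nonneg _
        refine mul_le_mul (mul_le_mul_of_nonneg_left hA (sq_nonneg N)) h3 h5 (by positivity)
  rcases (Nat.cast_nonneg (α := ℝ) R.card).eq_or_lt with h5 | h5
  · rw [← h5]
    simp only [zero_mul, add_zero]
    positivity
  · have h6 : (R.card : ℝ) * (R.card * η ^ 2) ≤ R.card * (N ^ 2 * A * (2 * A + R.card * δ)) := by
      calc (R.card : ℝ) * (R.card * η ^ 2) = ((R.card : ℝ) * η) ^ 2 := by ring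
        _ ≤ _ := h4
        _ = _ := by ring
    exact le_of_mul_le_mul_left h6 h5

end Pool.Agent.R385.DT
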