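import Pool.Agent.H378R2.M1b

/-!
# Correlations of Dirichlet characters over the primes at small scales
-/

set_option autoImplicit false

namespace Pool.Agent.R385.DT

open Filter Topology Complex ArithmeticFunction

/-- The restriction of `f` to the primes. -/
noncomputable def prF (f : ℕ → ℂ) (n : ℕ) : ℂ := if n.Prime then f n else 0

lemma norm_prF_le {f : ℕ → ℂ} {D : ℝ} (hD : 0 ≤ D) (hf : ∀ n, ‖f n‖ ≤ D) (n : ℕ) :
    ‖prF f n‖ ≤ D := by
  unfold prF
  split_ifs
  · exact hf n
  · simpa using hD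

/-- The contribution of the prime powers. -/
noncomputable def CL : ℝ := ∑' n : ℕ, (if n.Prime then 0 else vonMangoldt n) / n

lemma CL_summable : Summable fun n : ℕ => (if n.Prime then 0 else vonMangoldt n) / n := by
  have h := vonMangoldt.summable_residueClass_non_primes_div (q := 1) (a := 0)
  refine h.congr fun n => ?_
  have h1 : vonMangoldt.residueClass (0 : ZMod 1) n = vonMangoldt n := by
    unfold vonMangoldt.residueClass
    rw [Set.indicator_of_mem]
    exact Subsingleton.elim _ _
  rw [h1]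

lemma CL_nonneg : 0 ≤ CL := by
  refine tsum_nonneg fun n => div_nonneg ?_ (Nat.cast_nonneg _)
  split_ifs
  · exact le_rfl
  · exact vonMangoldt_nonneg

lemma summable_bdd {f : ℕ → ℂ} {D : ℝ} (hf : ∀ n, ‖f n‖ ≤ D) {s : ℂ} (hs : 1 < s.re) :
    LSeriesSummable f s := LSeriesSummable_of_bounded_of_one_lt_re (fun n _ => hf n) hs

lemma absc_bdd {f : ℕ → ℂ} {D : ℝ} (hf : ∀ n, ‖f n‖ ≤ D) :
    LSeries.abscissaOfAbsConv f ≤ 1 := by
  refine LSeries.abscissaOfAbsConv_le_one_of_isBigO_one ?_
  refine Asymptotics.IsBigO.of_bound D (Eventually.of_forall fun n => ?_)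
  simpa using hf n

lemma absc_lt {f : ℕ → ℂ} {D : ℝ} (hf : ∀ n, ‖f n‖ ≤ D) {s : ℂ} (hs : 1 < s.re) :
    LSeries.abscissaOfAbsConv f < s.re :=
  lt_of_le_of_lt (absc_bdd hf) (by exact_mod_cast hs)

/-- The sum of `ψ(p) log p / p^s` and the logarithmic derivative. -/
lemma prime_log_bound {q : ℕ} [NeZero q] (ψ : DirichletCharacter ℂ q) {s : ℂ} (hs : 1 < s.re) :
    ‖LSeries (LSeries.logMul (prF fun n => ψ n)) s‖ ≤
      ‖deriv (DirichletCharacter.LFunction ψ) s / DirichletCharacter.LFunction ψ s‖ + CL := by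
  have hs0 : s ≠ 0 := by
    intro h
    rw [h] at hs
    simp at hs
    linarith
  have h1 := ψ.LSeries_twist_vonMangoldt_eq hs
  have h2 : DirichletCharacter.LFunction ψ s = LSeries (fun n => ψ n) s :=
    ψ.LFunction_eq_LSeries hs
  have h3 : deriv (DirichletCharacter.LFunction ψ) s = deriv (LSeries fun n => ψ n) s := by
    refine Filter.EventuallyEq.deriv_eq ?_
    have hopen : IsOpen {z : ℂ | 1 < z.re} := isOpen_lt continuous_const continuous_re
    filter_upwards [hopen.mem_nhds hs] with z hz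
    exact ψ.LFunction_eq_LSeries hz
  set g : ℕ → ℂ := (fun n : ℕ => ψ n) * (fun n : ℕ => (vonMangoldt n : ℂ)) with hg
  have hgs : LSeriesSummable g s := ψ.LSeriesSummable_twist_vonMangoldt hs
  have hls : LSeriesSummable (LSeries.logMul (prF fun n => ψ n)) s :=
    LSeriesSummable_logMul_of_lt_re (absc_lt (norm_prF_le zero_le_one
      fun n => ψ.norm_le_one _) hs)
  have h4 : ∀ n, LSeries.term (LSeries.logMul (prF fun n => ψ n)) s n =
      LSeries.term g s n - LSeries.term (fun n => if n.Prime then 0 else g n) s n := by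
    intro n
    rcases eq_or_ne n 0 with rfl | hn
    · simp
    · rw [LSeries.term_of_ne_zero hn, LSeries.term_of_ne_zero hn, LSeries.term_of_ne_zero hn,
        LSeries.logMul]
      unfold prF
      by_cases hp : n.Prime
      · rw [if_pos hp, if_pos hp, hg, Pi.mul_apply, vonMangoldt_apply_prime hp,
          ← Complex.natCast_log]
        ring
      · rw [if_neg hp, if_neg hp]
        simp
  have hgb : ∀ n, ‖LSeries.term (fun n => if n.Prime then 0 else g n) s n‖ ≤
      (if n.Prime then 0 else vonMangoldt n) / n := by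
    intro n
    rcases eq_or_ne n 0 with rfl | hn
    · simp
    · rw [LSeries.term_of_ne_zero hn]
      have hn0 : (0 : ℝ) < n := by exact_mod_cast Nat.pos_of_ne_zero hn
      have hn1 : (1 : ℝ) ≤ n := by exact_mod_cast Nat.one_le_iff_ne_zero.2 hn
      rw [norm_div, Complex.norm_natCast_cpow_of_pos (Nat.pos_of_ne_zero hn)]
      have h5 : ‖(if n.Prime then 0 else g n)‖ ≤ (if n.Prime then 0 else vonMangoldt n) := by
        split_ifs
        · simp
        · rw [hg, Pi.mul_apply, norm_mul, Complex.norm_real,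
            Real.norm_of_nonneg vonMangoldt_nonneg]
          exact mul_le_of_le_one_left vonMangoldt_nonneg (ψ.norm_le_one _)
      have h6 : (n : ℝ) ≤ (n : ℝ) ^ s.re := by
        calc (n : ℝ) = (n : ℝ) ^ (1 : ℝ) := (Real.rpow_one _).symm
          _ ≤ _ := Real.rpow_le_rpow_of_exponent_le hn1 hs.le
      have h7 : 0 ≤ (if n.Prime then 0 else vonMangoldt n) := by
        split_ifs
        · exact le_rfl
        · exact vonMangoldt_nonneg
      exact div_le_div₀ h7 h5 hn0 h6
  have hns : Summable (LSeries.term (fun n => if n.Prime then 0 else g n) s) :=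
    Summable.of_norm_bounded CL_summable hgb
  have h8 : LSeries (LSeries.logMul (prF fun n => ψ n)) s =
      LSeries g s - LSeries (fun n => if n.Prime then 0 else g n) s := by
    unfold LSeries
    rw [← Summable.tsum_sub hgs hns]
    exact tsum_congr h4
  have h9 : ‖LSeries (fun n => if n.Prime then 0 else g n) s‖ ≤ CL :=
    tsum_of_norm_bounded CL_summable.hasSum hgb
  rw [h8, h2, h3]
  have h10 : LSeries g s = -deriv (LSeries fun n => ψ n) s / LSeries (fun n => ψ n) s := h1
  refine (norm_sub_le _ _).trans (add_le_add ?_ h9)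
  rw [h10, neg_div, norm_neg]

/-- The correlation of `ψ(n) n^{-iu}` with the scale between `ε₁` and `ε₂`. -/
lemma cross {q : ℕ} [NeZero q] (ψ : DirichletCharacter ℂ q) (u M δ : ℝ)
    (hM : ∀ t : ℝ, 0 < t → t ≤ δ → ‖deriv (DirichletCharacter.LFunction ψ) (1 + t + u * I) /
      DirichletCharacter.LFunction ψ (1 + t + u * I)‖ ≤ M) {ε₁ ε₂ : ℝ} (h1 : 0 < ε₁)
    (h12 : ε₁ ≤ ε₂) (h2 : ε₂ ≤ δ) :
    ‖LSeries (prF fun n => ψ n) (1 + ε₁ + u * I) - LSeries (prF fun n => ψ n) (1 + ε₂ + u * I)‖ ≤
      (M + CL) * (ε₂ - ε₁) := by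
  have hd : ∀ t ∈ Set.Icc ε₁ ε₂, HasDerivWithinAt
      (fun t : ℝ => LSeries (prF fun n => ψ n) (1 + t + u * I))
      (-LSeries (LSeries.logMul (prF fun n => ψ n)) (1 + t + u * I)) (Set.Icc ε₁ ε₂) t := by
    intro t ht
    have hre : 1 < ((1 : ℂ) + t + u * I).re := by
      simp only [add_re, one_re, ofReal_re, mul_re, I_re, mul_zero, ofReal_im, I_im, mul_one,
        sub_self, add_zero]
      linarith [ht.1]
    have h3 := LSeries_hasDerivAt (absc_lt (norm_prF_le zero_le_one
      fun n => ψ.norm_le_one ((n : ℕ) : ZMod q)) hre)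
    have h4 : HasDerivAt (fun t : ℝ => (1 : ℂ) + t + u * I) 1 t := by
      have h5 : HasDerivAt (fun t : ℝ => (t : ℂ)) 1 t := Complex.ofRealCLM.hasDerivAt
      exact (h5.const_add 1).add_const _
    have h6 := HasDerivAt.comp t h3 h4
    rw [mul_one] at h6
    exact h6.hasDerivWithinAt
  have hb : ∀ t ∈ Set.Icc ε₁ ε₂,
      ‖-LSeries (LSeries.logMul (prF fun n => ψ n)) (1 + t + u * I)‖ ≤ M + CL := by
    intro t ht
    have hre : 1 < ((1 : ℂ) + t + u * I).re := by
      simp only [add_re, one_re, ofReal_re, mul_re, I_re, mul_zero, ofReal_im, I_im, mul_one,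
        sub_self, add_zero]
      linarith [ht.1]
    rw [norm_neg]
    refine (prime_log_bound ψ hre).trans (add_le_add ?_ le_rfl)
    exact hM t (h1.trans_le ht.1) (ht.2.trans h2)
  have key := (convex_Icc ε₁ ε₂).norm_image_sub_le_of_norm_hasDerivWithin_le hd hb
    (Set.right_mem_Icc.2 h12) (Set.left_mem_Icc.2 h12)
  refine key.trans (le_of_eq ?_)
  rw [Real.norm_eq_abs, abs_sub_comm, abs_of_nonneg (by linarith)]

end Pool.Agent.R385.DT
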