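import Pool.Agent.R385.MC.Defs

/-!
# Twists of L-functions of motives by Dirichlet characters: definitions
-/

set_option autoImplicit false

namespace Pool.Agent.R385.DT

open Polynomial

/-- The Euler factors `1 / B_p(p^{-s})` have degree `N` and are pure of weight `w` for all primes
`p ≥ P`: `B_p(z) = ∏ (1 - α_j z)` with `N` complex numbers of absolute value `p^{w/2}`.  For the
L-function of a motive over `ℚ` this holds for large `P`, the `α_j` are the eigenvalues of the
Frobenius at `p`. -/
def PureFrom (w : ℤ) (N : ℕ) (B : ℕ → ℂ[X]) (P : ℕ) : Prop :=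
  ∀ p : ℕ, p.Prime → P ≤ p → ∃ α : Fin N → ℂ, (∀ j, ‖α j‖ = (p : ℝ) ^ ((w : ℝ) / 2)) ∧
    ∀ z : ℂ, (B p).eval z = ∏ j, (1 - α j * z)

/-- The Euler factors of the twist by the Dirichlet character `χ`, without the primes below `P`:
`B_p(χ(p) z)` for the primes `p ≥ P`. -/
noncomputable def twist (B : ℕ → ℂ[X]) (P : ℕ) {q : ℕ} (χ : DirichletCharacter ℂ q) (p : ℕ) :
    ℂ[X] :=
  if p < P then 1 else (B p).comp (C (χ (p : ZMod q)) * X)

end Pool.Agent.R385.DT
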