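import Pool.Agent.R385.DT.All

/-!
# The density theorem for the L-functions
-/

set_option autoImplicit false

namespace Pool.Agent.R385.DT

open Filter Topology Finset Pool.Agent.W350.Edge Pool.Agent.R385.MC Polynomial

/-- **All scales.** -/
theorem all_scales (N : ℕ) {η κ : ℝ} (hη : 0 < η) (hκ : 0 < κ) : ∃ Q₀ : ℕ, ∀ Q : ℕ, Q₀ ≤ Q →
    ∀ (w : ℤ) (B : ℕ → ℂ[X]) (P : ℕ), PureFrom w N B P → ∃ E : Finset Ch,
    (E.card : ℝ) ≤ (Q : ℝ) ^ κ ∧ ∀ x : Ch, IsPr Q x → x ∉ E → ∀ τ : ℝ, |τ| ≤ Q →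
      (∀ ε : ℝ, Real.exp (-(Q : ℝ) ^ (κ / 4)) ≤ ε → ε ≤ 1 →
        |Real.log ‖LFun (twist B P x.2) (edge w τ + ε)‖| ≤ 20 * N * Real.log (Real.log Q)) ∧
      (∀ ε₁ ε₂ : ℝ, Real.exp (-(Q : ℝ) ^ (κ / 4)) ≤ ε₁ → ε₁ ≤ (Real.log Q ^ 19)⁻¹ →
        Real.exp (-(Q : ℝ) ^ (κ / 4)) ≤ ε₂ → ε₂ ≤ (Real.log Q ^ 19)⁻¹ →
        |Real.log ‖LFun (twist B P x.2) (edge w τ + ε₁)‖ -
          Real.log ‖LFun (twist B P x.2) (edge w τ + ε₂)‖| ≤ η) := by
  obtain ⟨Q₀, hQ₀8, hQ₀⟩ := all_G N (by positivity : 0 < η / 12) hκ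
  obtain ⟨C, hC, htriv⟩ := Gs_trivial
  have hC1 := C1_nonneg
  have hC2 := C2_nonneg
  have hev : ∀ᶠ Q : ℕ in atTop, 4 * C1 * N / η ≤ Real.log Q ∧ C + C2 + η ≤ Real.log (Real.log Q) :=
    (tend_log.eventually_ge_atTop _).and
      ((Real.tendsto_log_atTop.comp tend_log).eventually_ge_atTop _)
  obtain ⟨Q₁, hQ₁⟩ := eventually_atTop.1 hev
  refine ⟨max Q₀ Q₁, ?_⟩
  intro Q hQ w B P hB
  obtain ⟨hL4, hLL⟩ := hQ₁ Q ((le_max_right _ _).trans hQ)
  have hQ8 : 8 ≤ Q := hQ₀8.trans ((le_max_left _ _).trans hQ)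
  obtain ⟨E, hEc, hE⟩ := hQ₀ Q ((le_max_left _ _).trans hQ) (ac w N B P) ac_norm
  set L := Real.log Q with hLd
  have hL1 : 1 ≤ L := by
    have := four_le hQ8
    linarith
  have hL0 : 0 < L := by linarith
  obtain ⟨hp1, hp2⟩ := pow19 hL1
  set ε₀ := (L ^ 19)⁻¹ with hε₀
  have hε₀0 : 0 < ε₀ := by positivity
  have hε₀1 : ε₀ ≤ 1 := hp2.trans (inv_le_one_of_one_le₀ hL1)
  have hlogε₀ : Real.log (1 / ε₀) = 19 * Real.log L := by
    rw [one_div, hε₀, inv_inv, Real.log_pow]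
    norm_num
  have hN0 : (0 : ℝ) ≤ N := Nat.cast_nonneg N
  refine ⟨E, hEc, fun x hx hxE τ hτ => ?_⟩
  -- the comparison with `ε₀`
  have hcmp : ∀ ε : ℝ, Real.exp (-(Q : ℝ) ^ (κ / 4)) ≤ ε → ε ≤ ε₀ →
      |Real.log ‖LFun (twist B P x.2) (edge w τ + ε)‖ -
        Real.log ‖LFun (twist B P x.2) (edge w τ + ε₀)‖| ≤ η / 2 := by
    intro ε h1 h2
    have hε0 : 0 < ε := (Real.exp_pos _).trans_le h1
    refine (log_diff hB x.2 τ hε0 h2).trans ?_
    have h3 := hE x hx hxE τ hτ ε h1 h2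
    have h4 : C1 * N * (ε₀ - ε) ≤ η / 4 := by
      rw [div_le_iff₀ hη] at hL4
      calc C1 * N * (ε₀ - ε) ≤ C1 * N * L⁻¹ := by
            refine mul_le_mul_of_nonneg_left ?_ (by positivity)
            linarith
        _ = (4 * C1 * N) * L⁻¹ / 4 := by ring
        _ ≤ (L * η) * L⁻¹ / 4 := by gcongr
        _ = η / 4 := by field_simp
    linarith
  -- the trivial bound
  have htr : ∀ ε : ℝ, 0 < ε → ε ≤ 1 →
      |Real.log ‖LFun (twist B P x.2) (edge w τ + ε)‖| ≤ N * (Real.log (1 / ε) + C + C2) := by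
    intro ε h1 h2
    rw [log_tw hB x.2 τ h1]
    refine (Complex.abs_re_le_norm _).trans ((norm_add_le _ _).trans ?_)
    have h3 := htriv x.1 (ac w N B P) N ac_norm x.2 τ ε h1 h2
    have h4 := Rs_bound (w := w) (N := N) (B := B) (P := P) x.2 τ h1.le
    linarith
  refine ⟨fun ε h1 h2 => ?_, fun ε₁ ε₂ h1 h2 h3 h4 => ?_⟩
  · have hε0 : 0 < ε := (Real.exp_pos _).trans_le h1
    rcases Nat.eq_zero_or_pos N with hN | hN
    · have h3 := htr ε hε0 h2
      rw [hN] at h3 ⊢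
      simpa using h3
    · have hN1 : (1 : ℝ) ≤ N := by exact_mod_cast hN
      rcases le_or_gt ε₀ ε with h3 | h3
      · have h4 := htr ε hε0 h2
        have h5 : Real.log (1 / ε) ≤ 19 * Real.log L := by
          rw [← hlogε₀]
          refine Real.log_le_log (by positivity) ?_
          exact one_div_le_one_div_of_le hε₀0 h3
        refine h4.trans ?_
        have h6 : Real.log (1 / ε) + C + C2 ≤ 20 * Real.log L := by linarith
        calc N * (Real.log (1 / ε) + C + C2) ≤ N * (20 * Real.log L) :=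
              mul_le_mul_of_nonneg_left h6 hN0
          _ = 20 * N * Real.log L := by ring
      · have h4 := hcmp ε h1 h3.le
        have h5 := htr ε₀ hε₀0 hε₀1
        rw [hlogε₀] at h5
        have h6 : |Real.log ‖LFun (twist B P x.2) (edge w τ + ε)‖| ≤
            |Real.log ‖LFun (twist B P x.2) (edge w τ + ε₀)‖| + η / 2 := by
          have h7 := abs_sub_abs_le_abs_sub (Real.log ‖LFun (twist B P x.2) (edge w τ + ε)‖)
            (Real.log ‖LFun (twist B P x.2) (edge w τ + ε₀)‖)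
          linarith
        nlinarith
  · have h5 := hcmp ε₁ h1 h2
    have h6 := hcmp ε₂ h3 h4
    rw [abs_sub_comm] at h6
    have h7 := abs_sub_le (Real.log ‖LFun (twist B P x.2) (edge w τ + ε₁)‖)
      (Real.log ‖LFun (twist B P x.2) (edge w τ + ε₀)‖)
      (Real.log ‖LFun (twist B P x.2) (edge w τ + ε₂)‖)
    linarith

end Pool.Agent.R385.DT
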