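import Pool.Agent.R385.DT.Scale

/-!
# The density theorem
-/

set_option autoImplicit false

namespace Pool.Agent.R385.DT

open Filter Topology Finset Pool.Agent.W350.Edge Pool.Agent.R385.MC Polynomial

lemma exE {S : Set Ch} {M : ℝ} (h : ∀ R : Finset Ch, (∀ x ∈ R, x ∈ S) → (R.card : ℝ) ≤ M) :
    ∃ E : Finset Ch, (E.card : ℝ) ≤ M ∧ ∀ x ∈ S, x ∈ E := by
  have hfin : S.Finite := by
    by_contra hinf
    obtain ⟨R, hRS, hRc⟩ := Set.Infinite.exists_subset_card_eq hinf (⌊M⌋₊ + 1)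
    have h1 := h R fun x hx => hRS hx
    rw [hRc] at h1
    have h2 := Nat.lt_floor_add_one M
    push_cast at h1
    linarith
  exact ⟨hfin.toFinset, h _ fun x hx => hfin.mem_toFinset.1 hx, fun x hx => hfin.mem_toFinset.2 hx⟩

section

variable {w : ℤ} {N : ℕ} {B : ℕ → ℂ[X]} {P : ℕ} {q : ℕ}

/-- The difference of the logarithms. -/
lemma log_diff (hB : PureFrom w N B P) (χ : DirichletCharacter ℂ q) (τ : ℝ) {ε₁ ε₂ : ℝ}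
    (h1 : 0 < ε₁) (h12 : ε₁ ≤ ε₂) :
    |Real.log ‖LFun (twist B P χ) (edge w τ + ε₁)‖ - Real.log ‖LFun (twist B P χ) (edge w τ + ε₂)‖| ≤
      ‖Gs (ac w N B P) χ τ ε₁ - Gs (ac w N B P) χ τ ε₂‖ + C1 * N * (ε₂ - ε₁) := by
  rw [log_tw hB χ τ h1, log_tw hB χ τ (h1.trans_le h12), ← Complex.sub_re]
  refine (Complex.abs_re_le_norm _).trans ?_
  have h2 : Gs (ac w N B P) χ τ ε₁ + Rs w N B P χ τ ε₁ -
      (Gs (ac w N B P) χ τ ε₂ + Rs w N B P χ τ ε₂) =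
      (Gs (ac w N B P) χ τ ε₁ - Gs (ac w N B P) χ τ ε₂) +
      (Rs w N B P χ τ ε₁ - Rs w N B P χ τ ε₂) := by ring
  rw [h2]
  exact (norm_add_le _ _).trans (add_le_add le_rfl (Rs_diff χ τ h1.le h12))

end

lemma pow19 {L : ℝ} (hL : 1 ≤ L) : (L ^ 19)⁻¹ * L ^ 18 = L⁻¹ ∧ (L ^ 19)⁻¹ ≤ L⁻¹ := by
  have h0 : 0 < L := by linarith
  constructor
  · field_simp
  · exact inv_anti₀ h0 (le_self_pow₀ hL (by norm_num))

lemma tend_log : Tendsto (fun Q : ℕ => Real.log Q) atTop atTop :=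
  Real.tendsto_log_atTop.comp tendsto_natCast_atTop_atTop

/-- **One scale.** -/
theorem one_scale (N : ℕ) {η : ℝ} (hη : 0 < η) : ∃ Q₀ : ℕ, ∀ Q : ℕ, Q₀ ≤ Q → ∀ (w : ℤ)
    (B : ℕ → ℂ[X]) (P : ℕ), PureFrom w N B P → ∀ ε₁ ε₂ : ℝ, 0 < ε₁ → ε₁ ≤ ε₂ →
    ε₂ ≤ Real.exp 1 * ε₁ → ε₂ ≤ (Real.log Q ^ 19)⁻¹ → ∃ E : Finset Ch,
    (E.card : ℝ) ≤ 64 * (N : ℝ) ^ 2 / η ^ 2 ∧ ∀ x : Ch, IsPr Q x → x ∉ E → ∀ τ : ℝ, |τ| ≤ Q →
      |Real.log ‖LFun (twist B P x.2) (edge w τ + ε₁)‖ -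
        Real.log ‖LFun (twist B P x.2) (edge w τ + ε₂)‖| ≤ η := by
  obtain ⟨K, c, r, hK, hc, hr, hcount⟩ := scale_count
  have hev : ∀ᶠ Q : ℕ in atTop, 8 ≤ Q ∧ max (max c⁻¹ r⁻¹)
      (max (16 * (N : ℝ) ^ 2 * K / η ^ 2) (2 * C1 * N / η)) ≤ Real.log Q :=
    (eventually_ge_atTop 8).and (tend_log.eventually_ge_atTop _)
  obtain ⟨Q₀, hQ₀⟩ := eventually_atTop.1 hev
  refine ⟨Q₀, ?_⟩
  intro Q hQ w B P hB ε₁ ε₂ h1 h12 h2e h2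
  obtain ⟨hQ8, hL⟩ := hQ₀ Q hQ
  set L := Real.log Q with hLd
  have hL1 : 1 ≤ L := by
    have := four_le hQ8
    linarith
  have hL0 : 0 < L := by linarith
  have hLc : c⁻¹ ≤ L := ((le_max_left _ _).trans (le_max_left _ _)).trans hL
  have hLr : r⁻¹ ≤ L := ((le_max_right _ _).trans (le_max_left _ _)).trans hL
  have hL3 : 16 * (N : ℝ) ^ 2 * K / η ^ 2 ≤ L := ((le_max_left _ _).trans (le_max_right _ _)).trans hL
  have hL4 : 2 * C1 * N / η ≤ L := ((le_max_right _ _).trans (le_max_right _ _)).trans hL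
  obtain ⟨hp1, hp2⟩ := pow19 hL1
  have h20 : 0 < ε₂ := h1.trans_le h12
  have h2L : ε₂ * L ^ 18 ≤ L⁻¹ := by
    rw [← hp1]
    exact mul_le_mul_of_nonneg_right h2 (by positivity)
  have h2r : ε₂ ≤ r := (h2.trans hp2).trans (inv_le_of_inv_le₀ hr hLr)
  have hcc : L⁻¹ ≤ c := inv_le_of_inv_le₀ hc hLc
  have hcond : 4 * (N : ℝ) ^ 2 * (K * (ε₂ * L ^ 18)) ≤ (η / 2) ^ 2 := by
    rw [div_le_iff₀ (by positivity)] at hL3
    calc 4 * (N : ℝ) ^ 2 * (K * (ε₂ * L ^ 18)) ≤ 4 * (N : ℝ) ^ 2 * (K * L⁻¹) := by gcongr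
      _ = (16 * (N : ℝ) ^ 2 * K) * L⁻¹ / 4 := by ring
      _ ≤ (L * η ^ 2) * L⁻¹ / 4 := by gcongr
      _ = (η / 2) ^ 2 := by
        field_simp
        norm_num
  obtain ⟨E, hE, hEx⟩ := exE (S := {x : Ch | IsPr Q x ∧ ∃ τ : ℝ, |τ| ≤ Q ∧
      η / 2 ≤ ‖Gs (ac w N B P) x.2 τ ε₁ - Gs (ac w N B P) x.2 τ ε₂‖})
      (M := 16 * (N : ℝ) ^ 2 / (η / 2) ^ 2) (fun R hR => hcount Q hQ8 (ac w N B P) N ac_norm ε₁ ε₂
        h1 h12 h2r h2e (h2L.trans hcc) (η / 2) (by positivity) hcond R hR)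
  refine ⟨E, hE.trans (le_of_eq ?_), ?_⟩
  · field_simp
    ring
  · intro x hx hxE τ hτ
    have h3 : ‖Gs (ac w N B P) x.2 τ ε₁ - Gs (ac w N B P) x.2 τ ε₂‖ < η / 2 := by
      by_contra hcon
      exact hxE (hEx x ⟨hx, τ, hτ, not_lt.1 hcon⟩)
    refine (log_diff hB x.2 τ h1 h12).trans ?_
    have h4 : C1 * N * (ε₂ - ε₁) ≤ η / 2 := by
      have hC1 := C1_nonneg
      rw [div_le_iff₀ hη] at hL4
      calc C1 * N * (ε₂ - ε₁) ≤ C1 * N * L⁻¹ := by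
            refine mul_le_mul_of_nonneg_left ?_ (by positivity)
            linarith [h2.trans hp2]
        _ = (2 * C1 * N) * L⁻¹ / 2 := by ring
        _ ≤ (L * η) * L⁻¹ / 2 := by gcongr
        _ = η / 2 := by field_simp
    linarith

end Pool.Agent.R385.DT
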