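import Pool.Agent.R385.DT.Cross

/-!
# Pairs of primitive characters
-/

set_option autoImplicit false

namespace Pool.Agent.R385.DT

open Filter Topology Complex DirichletCharacter
open Pool.Agent.Erdos456 (mul_char_apply)

/-- A Dirichlet character, with its modulus. -/
abbrev Ch : Type := Σ q : ℕ, DirichletCharacter ℂ q

lemma unit_val {q : ℕ} (χ : DirichletCharacter ℂ q) {n : ℕ} (h : n.Coprime q) :
    ‖χ (n : ZMod q)‖ = 1 := by
  have h1 := (ZMod.isUnit_iff_coprime n q).2 h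
  have h2 := χ.unit_norm_eq_one h1.unit
  rwa [IsUnit.unit_spec] at h2

lemma lift_val {q N : ℕ} (χ : DirichletCharacter ℂ q) (hd : q ∣ N) {n : ℕ} (h : n.Coprime N) :
    changeLevel hd χ (n : ZMod N) = χ (n : ZMod q) := by
  have h1 : IsCoprime (n : ℤ) (N : ℤ) := Nat.isCoprime_iff_coprime.2 h
  have h2 := changeLevel_eq_cast_of_dvd' χ hd h1
  simpa using h2

lemma char_ext {N : ℕ} [NeZero N] {χ ψ : DirichletCharacter ℂ N}
    (h : ∀ n : ℕ, n.Coprime N → χ (n : ZMod N) = ψ (n : ZMod N)) : χ = ψ := by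
  refine MulChar.ext fun a => ?_
  have h1 : ((ZMod.val (a : ZMod N) : ℕ) : ZMod N) = a := ZMod.natCast_zmod_val _
  rw [← h1]
  refine h _ ?_
  exact ZMod.val_coe_unit_coprime a

/-- A primitive character is determined by its values at the integers coprime to `M`. -/
lemma prim_ext {x y : Ch} {M : ℕ} [NeZero M] (hx : x.2.IsPrimitive) (hy : y.2.IsPrimitive)
    (hxM : x.1 ∣ M) (hyM : y.1 ∣ M)
    (h : ∀ n : ℕ, n.Coprime M → x.2 (n : ZMod x.1) = y.2 (n : ZMod y.1)) : x = y := by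
  obtain ⟨q₁, χ₁⟩ := x
  obtain ⟨q₂, χ₂⟩ := y
  simp only at hx hy hxM hyM h
  have hlift : changeLevel hxM χ₁ = changeLevel hyM χ₂ := by
    refine char_ext fun n hn => ?_
    rw [lift_val χ₁ hxM hn, lift_val χ₂ hyM hn]
    exact h n hn
  set Ψ := changeLevel hxM χ₁ with hΨ
  have key : ∀ {q : ℕ} (χ : DirichletCharacter ℂ q) (hq : q ∣ M), χ.IsPrimitive →
      changeLevel hq χ = Ψ → q = Ψ.conductor := by
    intro q χ hq hχ he
    have : NeZero q := ⟨fun h0 => NeZero.ne M (Nat.eq_zero_of_zero_dvd (h0 ▸ hq))⟩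
    have h1 : q ∈ Ψ.conductorSet := ⟨hq, χ, he.symm⟩
    have h2 : Ψ.conductor ∣ q := conductor_dvd_of_mem_conductorSet Ψ h1
    have h3 : changeLevel h2 Ψ.primitiveCharacter = χ := by
      refine changeLevel_injective hq ?_
      rw [← changeLevel_trans, changeLevel_primitiveCharacter, he]
    have h4 : Ψ.conductor ∈ χ.conductorSet := ⟨h2, Ψ.primitiveCharacter, h3.symm⟩
    have h5 : χ.conductor ≤ Ψ.conductor := Nat.sInf_le h4
    rw [hχ] at h5
    exact le_antisymm h5 (Nat.le_of_dvd (NeZero.pos q) h2)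
  have hq : q₁ = q₂ := (key χ₁ hxM hx hΨ.symm).trans (key χ₂ hyM hy hlift.symm).symm
  subst hq
  have h6 : χ₁ = χ₂ := changeLevel_injective hxM hlift
  rw [h6]

/-- The product of one character and the conjugate of another. -/
noncomputable def pr (x y : Ch) : DirichletCharacter ℂ (x.1 * y.1) :=
  changeLevel (x.1.dvd_mul_right y.1) x.2 * changeLevel (y.1.dvd_mul_left x.1) y.2⁻¹

lemma pr_apply (x y : Ch) (n : ℕ) :
    pr x y (n : ZMod (x.1 * y.1)) = x.2 (n : ZMod x.1) * (starRingEnd ℂ) (y.2 (n : ZMod y.1)) := by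
  unfold pr
  rw [mul_char_apply, ← MulChar.star_apply']
  rfl

lemma pr_ne_one {x y : Ch} (hx0 : x.1 ≠ 0) (hy0 : y.1 ≠ 0) (hx : x.2.IsPrimitive)
    (hy : y.2.IsPrimitive) (hxy : x ≠ y) : pr x y ≠ 1 := by
  intro h
  have : NeZero (x.1 * y.1) := ⟨mul_ne_zero hx0 hy0⟩
  refine hxy (prim_ext (M := x.1 * y.1) hx hy (Nat.dvd_mul_right _ _) (Nat.dvd_mul_left _ _)
    fun n hn => ?_)
  have h1 := pr_apply x y n
  rw [h, MulChar.one_apply ((ZMod.isUnit_iff_coprime n _).2 hn)] at h1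
  have hny : n.Coprime y.1 := hn.coprime_dvd_right (Nat.dvd_mul_left _ _)
  have h2 := unit_val y.2 hny
  have h3 : y.2 (n : ZMod y.1) * (starRingEnd ℂ) (y.2 (n : ZMod y.1)) = 1 := by
    rw [Complex.mul_conj, Complex.normSq_eq_norm_sq, h2]
    simp
  have h4 : (starRingEnd ℂ) (y.2 (n : ZMod y.1)) ≠ 0 := by
    intro h5
    rw [h5, mul_zero] at h3
    exact zero_ne_one h3
  exact mul_right_cancel₀ h4 (h1.symm.trans h3.symm)

lemma sq_val {N : ℕ} {ψ : DirichletCharacter ℂ N} (h : ψ ^ 2 = 1) {n : ℕ} (hn : n.Coprime N) :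
    ψ (n : ZMod N) * ψ (n : ZMod N) = 1 := by
  have h1 : (ψ ^ 2) (n : ZMod N) = 1 := by
    rw [h, MulChar.one_apply ((ZMod.isUnit_iff_coprime n _).2 hn)]
  rw [pow_two, MulChar.mul_apply] at h1
  exact h1

/-- Two quadratic products with the same first character. -/
lemma third_ne_one {x y z : Ch} (hx0 : x.1 ≠ 0) (hy0 : y.1 ≠ 0) (hz0 : z.1 ≠ 0)
    (hy : y.2.IsPrimitive) (hz : z.2.IsPrimitive) (hyz : y ≠ z)
    (h3 : pr x z ^ 2 = 1) :
    changeLevel ((x.1 * y.1).dvd_mul_right (x.1 * z.1)) (pr x y) *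
      changeLevel ((x.1 * z.1).dvd_mul_left (x.1 * y.1)) (pr x z) ≠ 1 := by
  intro h
  have : NeZero (x.1 * y.1 * (x.1 * z.1)) := ⟨mul_ne_zero (mul_ne_zero hx0 hy0) (mul_ne_zero hx0 hz0)⟩
  refine hyz (prim_ext (M := x.1 * y.1 * (x.1 * z.1)) hy hz
    ((Nat.dvd_mul_left _ _).trans (Nat.dvd_mul_right _ _))
    ((Nat.dvd_mul_left _ _).trans (Nat.dvd_mul_left _ _)) fun n hn => ?_)
  have hxy : n.Coprime (x.1 * y.1) := hn.coprime_dvd_right (Nat.dvd_mul_right _ _)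
  have hxz : n.Coprime (x.1 * z.1) := hn.coprime_dvd_right (Nat.dvd_mul_left _ _)
  have hnx : n.Coprime x.1 := hxy.coprime_dvd_right (Nat.dvd_mul_right _ _)
  have h4 := mul_char_apply (pr x y) (pr x z) n
  rw [h, MulChar.one_apply ((ZMod.isUnit_iff_coprime n _).2 hn)] at h4
  have h5 := sq_val h3 hxz
  have h6 : pr x y (n : ZMod (x.1 * y.1)) = pr x z (n : ZMod (x.1 * z.1)) := by
    have h7 : pr x z (n : ZMod (x.1 * z.1)) ≠ 0 := by
      intro h8
      rw [h8, mul_zero] at h5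
      exact zero_ne_one h5
    exact mul_right_cancel₀ h7 (h4.symm.trans h5.symm)
  rw [pr_apply, pr_apply] at h6
  have h7 : x.2 (n : ZMod x.1) ≠ 0 := by
    intro h8
    have h9 := unit_val x.2 hnx
    rw [h8, norm_zero] at h9
    exact zero_ne_one h9
  exact (starRingEnd ℂ).injective (mul_left_cancel₀ h7 h6)

/-- The logarithmic derivative of the L-function of the product is not large near the line. -/
def GP (d l : ℝ) (x y : Ch) : Prop := ∀ [NeZero (x.1 * y.1)], ∀ s : ℂ, |s.re - 1| ≤ d / l ^ 18 →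
  Real.log (2 * |s.im| + 3) ≤ l →
    ‖deriv (DirichletCharacter.LFunction (pr x y)) s / DirichletCharacter.LFunction (pr x y) s‖ ≤
      l ^ 18 / d

/-- At most one exceptional partner. -/
theorem pair_bound : ∃ d : ℝ, 0 < d ∧ d ≤ 1 / 2 ∧ ∀ l : ℝ, 4 ≤ l → ∀ x y z : Ch,
    x.1 ≠ 0 → y.1 ≠ 0 → z.1 ≠ 0 → x.2.IsPrimitive → y.2.IsPrimitive → z.2.IsPrimitive →
    Real.log x.1 ≤ l / 2 → Real.log y.1 ≤ l / 2 → Real.log z.1 ≤ l / 2 →
    x ≠ y → x ≠ z → y ≠ z → GP d l x y ∨ GP d l x z := by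
  obtain ⟨d1, d2, κ, hd1, hd1', hd2, hd2', hκ, hA, hB⟩ := Pool.Agent.H378R2.M1.nzr
  refine ⟨d2, hd2, hd2', ?_⟩
  intro l hl x y z hx0 hy0 hz0 hx hy hz hlx hly hlz hxy hxz hyz
  have i1 : NeZero (x.1 * y.1) := ⟨mul_ne_zero hx0 hy0⟩
  have i2 : NeZero (x.1 * z.1) := ⟨mul_ne_zero hx0 hz0⟩
  have i3 : NeZero (x.1 * y.1 * (x.1 * z.1)) :=
    ⟨mul_ne_zero (mul_ne_zero hx0 hy0) (mul_ne_zero hx0 hz0)⟩
  have hx0' : (0 : ℝ) < x.1 := by exact_mod_cast Nat.pos_of_ne_zero hx0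
  have hy0' : (0 : ℝ) < y.1 := by exact_mod_cast Nat.pos_of_ne_zero hy0
  have hz0' : (0 : ℝ) < z.1 := by exact_mod_cast Nat.pos_of_ne_zero hz0
  have hlxy : Real.log ((x.1 * y.1 : ℕ) : ℝ) ≤ l := by
    rw [Nat.cast_mul, Real.log_mul hx0'.ne' hy0'.ne']
    linarith
  have hlxz : Real.log ((x.1 * z.1 : ℕ) : ℝ) ≤ l := by
    rw [Nat.cast_mul, Real.log_mul hx0'.ne' hz0'.ne']
    linarith
  by_cases h1 : pr x y ^ 2 = 1 → κ / l ^ 7 ≤ ‖LFunction (pr x y) ((1 + d1 / l ^ 9 : ℝ) : ℂ)‖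
  · left
    intro _ s hs1 hs2
    exact (hA l hl _ (pr x y) (pr_ne_one hx0 hy0 hx hy hxy) hlxy h1 s hs1 hs2).2
  · right
    push Not at h1
    obtain ⟨h2, h3⟩ := h1
    intro _ s hs1 hs2
    refine (hA l hl _ (pr x z) (pr_ne_one hx0 hz0 hx hz hxz) hlxz (fun h4 => ?_) s hs1 hs2).2
    refine hB l hl (x.1 * y.1) (x.1 * z.1) (x.1 * y.1 * (x.1 * z.1)) ?_ (pr x y) (pr x z)
      (changeLevel ((x.1 * y.1).dvd_mul_right (x.1 * z.1)) (pr x y) *
        changeLevel ((x.1 * z.1).dvd_mul_left (x.1 * y.1)) (pr x z)) h2 h4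
      (fun n => mul_char_apply (pr x y) (pr x z) n)
      (third_ne_one hx0 hy0 hz0 hy hz hyz h4) h3
    rw [Nat.cast_mul, Real.log_mul (by positivity) (by positivity)]
    linarith

end Pool.Agent.R385.DT
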