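import Pool.Agent.R385.DT.Wt2

/-!
# The number of exceptional characters at one scale
-/

set_option autoImplicit false

namespace Pool.Agent.R385.DT

open Filter Topology Finset Pool.Agent.W350.Edge Pool.Agent.R385.MC Polynomial

/-- The primitive characters of conductor at most `Q`. -/
def IsPr (Q : ℕ) (x : Ch) : Prop := 1 ≤ x.1 ∧ x.1 ≤ Q ∧ x.2.IsPrimitive

lemma four_le {Q : ℕ} (hQ : 8 ≤ Q) : 4 ≤ 2 * Real.log Q := by
  have h1 : (8 : ℝ) ≤ Q := by exact_mod_cast hQ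
  have h2 := Pool.Agent.Erdos456.two_le_log h1
  linarith

theorem scale_count : ∃ K c r : ℝ, 0 < K ∧ 0 < c ∧ 0 < r ∧ ∀ Q : ℕ, 8 ≤ Q →
    ∀ (a : ℕ → ℂ) (N : ℝ), (∀ n, ‖a n‖ ≤ N) → ∀ ε₁ ε₂ : ℝ, 0 < ε₁ → ε₁ ≤ ε₂ → ε₂ ≤ r →
    ε₂ ≤ Real.exp 1 * ε₁ → ε₂ * Real.log Q ^ 18 ≤ c →
    ∀ η : ℝ, 0 < η → 4 * N ^ 2 * (K * (ε₂ * Real.log Q ^ 18)) ≤ η ^ 2 → ∀ R : Finset Ch,
    (∀ x ∈ R, IsPr Q x ∧ ∃ τ : ℝ, |τ| ≤ Q ∧ η ≤ ‖Gs a x.2 τ ε₁ - Gs a x.2 τ ε₂‖) →
    (R.card : ℝ) ≤ 16 * N ^ 2 / η ^ 2 := by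
  classical
  obtain ⟨d, hd, hd2, hpair⟩ := pair_bound
  obtain ⟨r, hr, hmass⟩ := mass one_pos
  have hCL := CL_nonneg
  refine ⟨2 ^ 18 / d + CL, d / 2 ^ 18, r, by positivity, by positivity, hr, ?_⟩
  intro Q hQ a N ha ε₁ ε₂ h1 h12 h2 h2e h2c η hη hcond R hR
  have hl4 := four_le hQ
  set l := 2 * Real.log Q with hl
  have hl0 : 0 < l := by linarith
  have hlQ1 : 1 ≤ Real.log Q := by linarith
  have hl18 : l ^ 18 = 2 ^ 18 * Real.log Q ^ 18 := by
    rw [hl, mul_pow]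
  have hQ0 : (8 : ℝ) ≤ Q := by exact_mod_cast hQ
  have hε2d : ε₂ ≤ d / l ^ 18 := by
    rw [le_div_iff₀ (by positivity), hl18]
    have h3 : 0 < (2 : ℝ) ^ 18 := by positivity
    rw [le_div_iff₀ h3] at h2c
    linarith
  have hch : ∀ x : Ch, ∃ τ : ℝ, x ∈ R → |τ| ≤ Q ∧ η ≤ ‖Gs a x.2 τ ε₁ - Gs a x.2 τ ε₂‖ := by
    intro x
    by_cases hx : x ∈ R
    · obtain ⟨τ, hτ⟩ := (hR x hx).2
      exact ⟨τ, fun _ => hτ⟩
    · exact ⟨0, fun h => absurd h hx⟩
  choose T hT using hch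
  have hA : ∑' n, WW ε₁ ε₂ n ≤ 2 := by
    refine (hmass ε₁ ε₂ h1 h12 h2).trans ?_
    have h3 : Real.log (ε₂ / ε₁) ≤ 1 := by
      rw [← Real.log_exp 1]
      refine Real.log_le_log (div_pos (h1.trans_le h12) h1) ?_
      rw [div_le_iff₀ h1]
      exact h2e
    linarith
  set δ := (l ^ 18 / d + CL) * (ε₂ - ε₁) with hδ
  have hδ0 : 0 ≤ δ := by
    have : 0 ≤ ε₂ - ε₁ := by linarith
    positivity
  have hgood : ∀ x ∈ R, ∀ y ∈ R, GP d l x y →
      ‖∑' n, (WW ε₁ ε₂ n : ℂ) * (xt x.2 (T x) n * (starRingEnd ℂ) (xt y.2 (T y) n))‖ ≤ δ := by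
    intro x hx y hy hG
    have hx0 : x.1 ≠ 0 := by
      have := (hR x hx).1.1
      omega
    have hy0 : y.1 ≠ 0 := by
      have := (hR y hy).1.1
      omega
    have : NeZero (x.1 * y.1) := ⟨mul_ne_zero hx0 hy0⟩
    rw [corr x y (T x) (T y) h1 h12]
    refine cross (pr x y) (T x - T y) (l ^ 18 / d) (d / l ^ 18) (fun t ht1 ht2 => ?_) h1 h12 hε2d
    refine hG _ ?_ ?_
    · simp only [Complex.add_re, Complex.one_re, Complex.ofReal_re, Complex.mul_re, Complex.I_re,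
        mul_zero, Complex.ofReal_im, Complex.I_im, mul_one, sub_self, add_zero,
        add_sub_cancel_left]
      rw [abs_of_pos ht1]
      exact ht2
    · simp only [Complex.add_im, Complex.one_im, Complex.ofReal_im, Complex.mul_im, Complex.I_re,
        mul_zero, Complex.ofReal_re, Complex.I_im, mul_one, add_zero, zero_add]
      have h3 : |T x - T y| ≤ 2 * Q := by
        have h4 := abs_sub (T x) (T y)
        have h5 := (hT x hx).1
        have h6 := (hT y hy).1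
        linarith
      have h4 : 2 * |T x - T y| + 3 ≤ (Q : ℝ) ^ 2 := by nlinarith
      rw [hl]
      have h5 : 2 * Real.log Q = Real.log ((Q : ℝ) ^ 2) := by
        rw [Real.log_pow]
        norm_num
      rw [h5]
      exact Real.log_le_log (by positivity) h4
  have hlog : ∀ x ∈ R, Real.log x.1 ≤ l / 2 := by
    intro x hx
    have h3 := (hR x hx).1
    have h4 : (0 : ℝ) < x.1 := by
      have := h3.1
      exact_mod_cast this
    rw [hl, mul_div_cancel_left₀ _ two_ne_zero]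
    exact Real.log_le_log h4 (by exact_mod_cast h3.2.1)
  have key := count R (WW_nonneg h12) (WW_summable h1 h12) (fun x => xt x.2 (T x))
    (fun x n => norm_xt x.2 (T x) n) a ha hA hδ0 hη.le (fun x hx => by
      rw [← Gs_sub ha x.2 (T x) h1 h12]
      exact (hT x hx).2) (fun x hx y hy z hz hxy hxz hyz => by
      have h0 : ∀ x ∈ R, x.1 ≠ 0 := fun x hx => by
        have := (hR x hx).1.1
        omega
      rcases hpair l hl4 x y z (h0 x hx) (h0 y hy) (h0 z hz) (hR x hx).1.2.2 (hR y hy).1.2.2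
        (hR z hz).1.2.2 (hlog x hx) (hlog y hy) (hlog z hz) hxy hxz hyz with h3 | h3
      · exact Or.inl (hgood x hx y hy h3)
      · exact Or.inr (hgood x hx z hz h3))
  have hδK : δ ≤ (2 ^ 18 / d + CL) * (ε₂ * Real.log Q ^ 18) := by
    have hlogp : 1 ≤ Real.log Q ^ 18 := one_le_pow₀ hlQ1
    have h20 : 0 < ε₂ := h1.trans_le h12
    calc δ ≤ (l ^ 18 / d + CL) * ε₂ := by
          rw [hδ]
          refine mul_le_mul_of_nonneg_left (by linarith) (by positivity)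
      _ ≤ (2 ^ 18 / d * Real.log Q ^ 18 + CL * Real.log Q ^ 18) * ε₂ := by
          refine mul_le_mul_of_nonneg_right (add_le_add ?_ ?_) h20.le
          · rw [hl18]
            exact le_of_eq (by ring)
          · exact le_mul_of_one_le_right hCL hlogp
      _ = _ := by ring
  have h3 : 2 * N ^ 2 * δ ≤ η ^ 2 / 2 := by
    have h4 : 4 * N ^ 2 * δ ≤ 4 * N ^ 2 * ((2 ^ 18 / d + CL) * (ε₂ * Real.log Q ^ 18)) :=
      mul_le_mul_of_nonneg_left hδK (by positivity)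
    linarith
  have h4 : (R.card : ℝ) * (2 * N ^ 2 * δ) ≤ R.card * (η ^ 2 / 2) :=
    mul_le_mul_of_nonneg_left h3 (Nat.cast_nonneg _)
  rw [le_div_iff₀ (by positivity)]
  nlinarith

end Pool.Agent.R385.DT
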