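import Pool.Agent.R385.DT.Defs
import Pool.Agent.R385.DT.Prim
import Pool.Agent.R385.DT.Bes
import Pool.Agent.R385.TA.Zet

/-!
# The logarithm of the twisted Euler product
-/

set_option autoImplicit false

namespace Pool.Agent.R385.DT

open Filter Topology Finset Pool.Agent.W350.Edge Pool.Agent.R385.MC Polynomial

/-- The twisted power sums. -/
noncomputable def tX (t : ℕ → ℕ → ℂ) {q : ℕ} (χ : DirichletCharacter ℂ q) (p m : ℕ) : ℂ :=
  t p m * χ (p : ZMod q) ^ m

lemma tX_WB {t : ℕ → ℕ → ℂ} {w : ℝ} {S : Finset ℕ} {D : ℝ} (ht : WB t w S D) {q : ℕ}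
    (χ : DirichletCharacter ℂ q) : WB (tX t χ) w S D := by
  intro p hp hpS m
  unfold tX
  rw [norm_mul, norm_pow]
  exact (mul_le_of_le_one_right (norm_nonneg _)
    (pow_le_one₀ (norm_nonneg _) (χ.norm_le_one _))).trans (ht p hp hpS m)

section

variable {w : ℤ} {N : ℕ} {B : ℕ → ℂ[X]} {P : ℕ} {q : ℕ}

lemma fac_twist (hB : PureFrom w N B P) (χ : DirichletCharacter ℂ q) {p : ℕ} (hp : p.Prime)
    {s : ℂ} (hs : (w : ℝ) / 2 < s.re) :
    fac (tX (tt N w B (range P)) χ) (range P) (fun _ => 1) s p = MC.factor (twist B P χ) p s := by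
  unfold fac MC.factor twist
  by_cases h : p < P
  · rw [if_pos (mem_range.2 h), if_pos h]
  · have h0 : p ∉ range P := by simpa using h
    rw [if_neg h0, if_neg h]
    obtain ⟨α₀, hα₀, hev₀⟩ := hB p hp (not_lt.1 h)
    have h2 : (p.Prime ∧ p ∉ range P) ∧ ∃ α : Fin N → ℂ,
        (∀ j, ‖α j‖ = (p : ℝ) ^ ((w : ℝ) / 2)) ∧ ∀ z : ℂ, (B p).eval z = ∏ j, (1 - α j * z) :=
      ⟨⟨hp, h0⟩, α₀, hα₀, hev₀⟩
    obtain ⟨hα, hev⟩ := h2.2.choose_spec
    set α := h2.2.choose with hαd
    have ht : ∀ m, tX (tt N w B (range P)) χ p m = ∑ j, (α j * χ (p : ZMod q)) ^ m := by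
      intro m
      unfold tX tt
      rw [dif_pos h2, sum_mul]
      refine sum_congr rfl fun j _ => ?_
      rw [mul_pow]
    have hval : eval ((p : ℂ) ^ (-s)) ((B p).comp (C (χ (p : ZMod q)) * X)) =
        ∏ j, (1 - (α j * χ (p : ZMod q)) * (p : ℂ) ^ (-s)) := by
      rw [eval_comp, eval_mul, eval_C, eval_X, hev]
      refine prod_congr rfl fun j _ => ?_
      ring
    rw [hval]
    by_cases hc : χ (p : ZMod q) = 0
    · have h3 : logF (tX (tt N w B (range P)) χ) p s = 0 := by
        unfold logF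
        have h4 : ∀ m : ℕ, tX (tt N w B (range P)) χ p (m + 1) *
            (p : ℂ) ^ (-((m + 1 : ℂ) * s)) / (m + 1 : ℂ) = 0 := by
          intro m
          rw [ht, hc]
          simp
        rw [tsum_congr h4, tsum_zero]
      rw [h3, Complex.exp_zero, hc]
      simp
    · have h3 : ‖χ (p : ZMod q)‖ = 1 := by
        have hu : IsUnit (p : ZMod q) := by
          by_contra hu
          exact hc (χ.map_nonunit hu)
        have h4 := χ.unit_norm_eq_one hu.unit
        rwa [IsUnit.unit_spec] at h4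
      exact exp_logF hp (fun j => α j * χ (p : ZMod q)) (fun j => by rw [norm_mul, h3, mul_one, hα])
        _ ht hs

/-- The sum over the primes. -/
noncomputable def Gs (a : ℕ → ℂ) (χ : DirichletCharacter ℂ q) (τ ε : ℝ) : ℂ :=
  ∑' n : ℕ, if n.Prime then a n / n * χ (n : ZMod q) *
    Complex.exp (-(ε + τ * Complex.I) * Real.log n) else 0

/-- The contribution of the higher powers. -/
noncomputable def Rs (w : ℤ) (N : ℕ) (B : ℕ → ℂ[X]) (P : ℕ) (χ : DirichletCharacter ℂ q)
    (τ ε : ℝ) : ℂ :=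
  ∑' p : ℕ, RR (tX (tt N w B (range P)) χ) (range P) p (sp w τ + ε)

/-- The coefficients. -/
noncomputable def ac (w : ℤ) (N : ℕ) (B : ℕ → ℂ[X]) (P : ℕ) : ℕ → ℂ :=
  aa (tt N w B (range P)) w (range P)

lemma ac_norm (n : ℕ) : ‖ac w N B P n‖ ≤ N := norm_aa tt_WB n

lemma term_tw (χ : DirichletCharacter ℂ q) (τ ε : ℝ) (n : ℕ) :
    Complex.exp (-(ε : ℂ) * Real.log n) * term (aa (tX (tt N w B (range P)) χ) w (range P)) τ n =
      if n.Prime then ac w N B P n / n * χ (n : ZMod q) *
        Complex.exp (-(ε + τ * Complex.I) * Real.log n) else 0 := by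
  unfold term
  split_ifs with hp
  · have h1 : aa (tX (tt N w B (range P)) χ) w (range P) n = ac w N B P n * χ (n : ZMod q) := by
      unfold ac aa tX
      split_ifs
      · ring
      · simp
    rw [h1]
    have h2 : Complex.exp (-(ε + τ * Complex.I) * Real.log n) =
        Complex.exp (-(ε : ℂ) * Real.log n) * Complex.exp (-(τ * Real.log n) * Complex.I) := by
      rw [← Complex.exp_add]
      congr 1
      ring
    rw [h2]
    ring
  · simp

/-- The logarithm of the twisted Euler product. -/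
theorem log_tw (hB : PureFrom w N B P) (χ : DirichletCharacter ℂ q) (τ : ℝ) {ε : ℝ} (hε : 0 < ε) :
    Real.log ‖LFun (twist B P χ) (edge w τ + ε)‖ =
      (Gs (ac w N B P) χ τ ε + Rs w N B P χ τ ε).re := by
  have h1 := euler_eq (tX_WB (tt_WB (N := N) (w := w) (B := B) (S := range P)) χ)
    (fun _ => (1 : ℂ[X])) τ ε (by simpa using hε)
  have h2 : ∏ p ∈ range P, BBf (range P) (fun _ => (1 : ℂ[X])) (sp w τ + ε) p = 1 := by
    refine prod_eq_one fun p _ => ?_
    unfold BBf
    split_ifs <;> simp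
  rw [h2, one_mul] at h1
  have hre : (w : ℝ) / 2 < (sp w τ + ε).re := by
    rw [Complex.add_re, sp_re, Complex.ofReal_re]
    linarith
  have h3 := (h1.congr_fun fun p => (fac_twist hB χ p.2 hre).symm).tprod_eq
  have h4 : LFun (twist B P χ) (edge w τ + ε) = Complex.exp
      (Gs (ac w N B P) χ τ ε + Rs w N B P χ τ ε) := by
    rw [edge_eq]
    unfold LFun Gs Rs
    rw [h3]
    congr 2
    exact tsum_congr fun n => term_tw χ τ ε n
  rw [h4, Complex.norm_exp, Real.log_exp]

end

end Pool.Agent.R385.DT
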