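import Pool.Agent.R385.DT.Tw

/-!
# The weights of a scale
-/

set_option autoImplicit false

namespace Pool.Agent.R385.DT

open Filter Topology Finset Pool.Agent.W350.Edge Pool.Agent.R385.MC Polynomial

lemma exp_neg_sub_le {x y : ℝ} (hx : 0 ≤ x) (hxy : x ≤ y) :
    |Real.exp (-x) - Real.exp (-y)| ≤ y - x := by
  have h1 : Real.exp (-y) ≤ Real.exp (-x) := Real.exp_le_exp.2 (by linarith)
  rw [abs_of_nonneg (by linarith)]
  have h2 : Real.exp (-x) - Real.exp (-y) = Real.exp (-x) * (1 - Real.exp (-(y - x))) := by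
    rw [mul_sub, mul_one, ← Real.exp_add]
    congr 2
    ring
  have h3 := Real.add_one_le_exp (-(y - x))
  have h4 : Real.exp (-x) ≤ 1 := by
    rw [Real.exp_le_one_iff]
    linarith
  have h5 : 0 ≤ 1 - Real.exp (-(y - x)) := by
    have : Real.exp (-(y - x)) ≤ 1 := by
      rw [Real.exp_le_one_iff]
      linarith
    linarith
  rw [h2]
  calc Real.exp (-x) * (1 - Real.exp (-(y - x))) ≤ 1 * (1 - Real.exp (-(y - x))) :=
        mul_le_mul_of_nonneg_right h4 h5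
    _ ≤ y - x := by linarith

section

variable {t : ℕ → ℕ → ℂ} {w : ℝ} {S : Finset ℕ} {D : ℝ}

lemma cpow_real_diff {p : ℕ} (hp : p.Prime) (k : ℕ) (τ : ℝ) {ε₁ ε₂ : ℝ} (h1 : 0 ≤ ε₁)
    (h12 : ε₁ ≤ ε₂) :
    ‖(p : ℂ) ^ (-((k : ℂ) * (sp w τ + ε₁))) - (p : ℂ) ^ (-((k : ℂ) * (sp w τ + ε₂)))‖ ≤
      ((p : ℝ) ^ (-(w / 2 + 1))) ^ k * (k * Real.log p * (ε₂ - ε₁)) := by
  have hp0 : (0 : ℝ) < p := by exact_mod_cast hp.pos
  have hpc : (p : ℂ) ≠ 0 := by exact_mod_cast hp.ne_zero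
  have hL : 0 ≤ Real.log p := Real.log_natCast_nonneg p
  have hlog : Complex.log (p : ℂ) = ((Real.log p : ℝ) : ℂ) := by
    rw [← Complex.ofReal_natCast, Complex.ofReal_log hp0.le]
  have e1 : ∀ ε : ℝ, (p : ℂ) ^ (-((k : ℂ) * (sp w τ + ε))) =
      (p : ℂ) ^ (-((k : ℂ) * sp w τ)) * ((Real.exp (-(k * ε * Real.log p)) : ℝ) : ℂ) := by
    intro ε
    rw [Complex.cpow_def_of_ne_zero hpc, Complex.cpow_def_of_ne_zero hpc, hlog,
      Complex.ofReal_exp, ← Complex.exp_add]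
    congr 1
    push_cast
    ring
  rw [e1, e1, ← mul_sub, norm_mul, ← Complex.ofReal_sub, Complex.norm_real, Real.norm_eq_abs]
  have e2 : ‖(p : ℂ) ^ (-((k : ℂ) * sp w τ))‖ = ((p : ℝ) ^ (-(w / 2 + 1))) ^ k := by
    rw [Complex.norm_natCast_cpow_of_pos hp.pos, ← Real.rpow_natCast, ← Real.rpow_mul hp0.le]
    congr 1
    have : (-((k : ℂ) * sp w τ)).re = -((k : ℝ) * (w / 2 + 1)) := by
      rw [Complex.neg_re, Complex.mul_re, sp_re]
      simp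
    rw [this]
    ring
  rw [e2]
  refine mul_le_mul_of_nonneg_left ?_ (by positivity)
  refine (exp_neg_sub_le (by positivity) ?_).trans (le_of_eq (by ring))
  gcongr

/-- The variation of the contribution of the higher powers. -/
lemma RR_diff (ht : WB t w S D) (p : ℕ) (τ : ℝ) {ε₁ ε₂ : ℝ} (h1 : 0 ≤ ε₁) (h12 : ε₁ ≤ ε₂) :
    ‖RR t S p (sp w τ + ε₁) - RR t S p (sp w τ + ε₂)‖ ≤
      2 * (D * (Real.log p * (ε₂ - ε₁))) / (p : ℝ) ^ 2 := by
  have hD := ht.nonneg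
  have hL : 0 ≤ Real.log p := Real.log_natCast_nonneg p
  have hre : ∀ ε : ℝ, 0 ≤ ε → w / 2 + 1 ≤ (sp w τ + ε).re := by
    intro ε hε
    rw [Complex.add_re, sp_re, Complex.ofReal_re]
    linarith
  have h0 : 0 ≤ D * (Real.log p * (ε₂ - ε₁)) := by
    have : 0 ≤ ε₂ - ε₁ := by linarith
    positivity
  unfold RR
  split_ifs with h
  · have hs : ∀ ε : ℝ, 0 ≤ ε → Summable fun m : ℕ => t p (m + 1 + 1) *
        (p : ℂ) ^ (-(((m + 1 : ℕ) + 1 : ℂ) * (sp w τ + ε))) / ((m + 1 : ℕ) + 1 : ℂ) :=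
      fun ε hε => Summable.of_norm_bounded (geo_summable h.1 D)
        fun m => T_bound ht h.1 h.2 (m + 1) (hre ε hε)
    rw [← (hs ε₁ h1).tsum_sub (hs ε₂ (h1.trans h12))]
    refine le_trans ?_ (geo_tsum h.1 h0)
    refine tsum_of_norm_bounded (geo_summable h.1 _).hasSum fun m => ?_
    have hp0 : (0 : ℝ) < p := by exact_mod_cast h.1.pos
    have h3 : t p (m + 1 + 1) * (p : ℂ) ^ (-(((m + 1 : ℕ) + 1 : ℂ) * (sp w τ + ε₁))) /
          ((m + 1 : ℕ) + 1 : ℂ) -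
        t p (m + 1 + 1) * (p : ℂ) ^ (-(((m + 1 : ℕ) + 1 : ℂ) * (sp w τ + ε₂))) /
          ((m + 1 : ℕ) + 1 : ℂ) =
        t p (m + 1 + 1) * ((p : ℂ) ^ (-(((m + 1 + 1 : ℕ) : ℂ) * (sp w τ + ε₁))) -
          (p : ℂ) ^ (-(((m + 1 + 1 : ℕ) : ℂ) * (sp w τ + ε₂)))) / ((m + 1 + 1 : ℕ) : ℂ) := by
      push_cast
      ring
    rw [h3, norm_div, norm_mul, Complex.norm_natCast]
    have h4 := ht p h.1 h.2 (m + 1)
    have h5 := cpow_real_diff (w := w) h.1 (m + 1 + 1) τ h1 h12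
    have hk : (0 : ℝ) < ((m + 1 + 1 : ℕ) : ℝ) := by positivity
    rw [div_le_iff₀ hk]
    calc ‖t p (m + 1 + 1)‖ * ‖(p : ℂ) ^ (-(((m + 1 + 1 : ℕ) : ℂ) * (sp w τ + ε₁))) -
          (p : ℂ) ^ (-(((m + 1 + 1 : ℕ) : ℂ) * (sp w τ + ε₂)))‖
        ≤ (D * ((p : ℝ) ^ (w / 2)) ^ (m + 1 + 1)) * (((p : ℝ) ^ (-(w / 2 + 1))) ^ (m + 1 + 1) *
          (((m + 1 + 1 : ℕ) : ℝ) * Real.log p * (ε₂ - ε₁))) :=
          mul_le_mul h4 h5 (norm_nonneg _) (by positivity)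
      _ = D * (Real.log p * (ε₂ - ε₁)) *
          ((p : ℝ) ^ (w / 2) * (p : ℝ) ^ (-(w / 2 + 1))) ^ (m + 1 + 1) *
            ((m + 1 + 1 : ℕ) : ℝ) := by
          rw [mul_pow]
          ring
      _ = D * (Real.log p * (ε₂ - ε₁)) * (1 / (p : ℝ)) ^ (m + 1 + 1) *
            ((m + 1 + 1 : ℕ) : ℝ) := by
          congr 3
          rw [← Real.rpow_add hp0]
          have : w / 2 + -(w / 2 + 1) = -1 := by ring
          rw [this, Real.rpow_neg_one, one_div]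
  · rw [sub_self, norm_zero]
    positivity

end

lemma log_sq_summable : Summable fun n : ℕ => 2 * Real.log n / (n : ℝ) ^ 2 := by
  refine Summable.of_nonneg_of_le (fun n => ?_) (fun n => ?_)
    ((Real.summable_one_div_nat_rpow.2 (by norm_num : (1 : ℝ) < 3 / 2)).mul_left 4)
  · have := Real.log_natCast_nonneg n
    positivity
  · rcases Nat.eq_zero_or_pos n with h | h
    · rw [h]
      simp
    · have hn : (0 : ℝ) < n := by exact_mod_cast h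
      have h1 := Real.log_le_rpow_div hn.le (by norm_num : (0 : ℝ) < 1 / 2)
      have h2 : 2 * Real.log n ≤ 4 * (n : ℝ) ^ (1 / 2 : ℝ) := by
        have : (n : ℝ) ^ (1 / 2 : ℝ) / (1 / 2) = 2 * (n : ℝ) ^ (1 / 2 : ℝ) := by ring
        linarith
      have h3 : (n : ℝ) ^ (1 / 2 : ℝ) / (n : ℝ) ^ 2 = 1 / (n : ℝ) ^ (3 / 2 : ℝ) := by
        rw [one_div ((n : ℝ) ^ (3 / 2 : ℝ)), ← Real.rpow_neg hn.le, ← Real.rpow_natCast (n : ℝ) 2,
          ← Real.rpow_sub hn]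
        norm_num
      calc 2 * Real.log n / (n : ℝ) ^ 2 ≤ 4 * (n : ℝ) ^ (1 / 2 : ℝ) / (n : ℝ) ^ 2 := by gcongr
        _ = 4 * ((n : ℝ) ^ (1 / 2 : ℝ) / (n : ℝ) ^ 2) := by ring
        _ = 4 * (1 / (n : ℝ) ^ (3 / 2 : ℝ)) := by rw [h3]

/-- The constant for the higher powers. -/
noncomputable def C1 : ℝ := ∑' n : ℕ, 2 * Real.log n / (n : ℝ) ^ 2

/-- The constant for the higher powers. -/
noncomputable def C2 : ℝ := ∑' n : ℕ, 2 / (n : ℝ) ^ 2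

lemma C1_nonneg : 0 ≤ C1 := tsum_nonneg fun n => by
  have := Real.log_natCast_nonneg n
  positivity

lemma C2_nonneg : 0 ≤ C2 := tsum_nonneg fun n => by positivity

section

variable {w : ℤ} {N : ℕ} {B : ℕ → ℂ[X]} {P : ℕ} {q : ℕ}

lemma Rs_diff (χ : DirichletCharacter ℂ q) (τ : ℝ) {ε₁ ε₂ : ℝ} (h1 : 0 ≤ ε₁) (h12 : ε₁ ≤ ε₂) :
    ‖Rs w N B P χ τ ε₁ - Rs w N B P χ τ ε₂‖ ≤ C1 * N * (ε₂ - ε₁) := by
  have ht := tX_WB (tt_WB (N := N) (w := w) (B := B) (S := range P)) χ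
  have hs : ∀ ε : ℝ, 0 ≤ ε →
      Summable fun p : ℕ => RR (tX (tt N w B (range P)) χ) (range P) p (sp w τ + ε) := by
    intro ε hε
    refine Summable.of_norm_bounded (RR_summable_bound N) fun p => RR_bound ht p ?_
    rw [Complex.add_re, sp_re, Complex.ofReal_re]
    linarith
  unfold Rs
  rw [← (hs ε₁ h1).tsum_sub (hs ε₂ (h1.trans h12))]
  have h3 : HasSum (fun n : ℕ => 2 * Real.log n / (n : ℝ) ^ 2 * (N * (ε₂ - ε₁)))
      (C1 * (N * (ε₂ - ε₁))) := log_sq_summable.hasSum.mul_right _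
  have h4 : C1 * N * (ε₂ - ε₁) = C1 * (N * (ε₂ - ε₁)) := by ring
  rw [h4]
  refine tsum_of_norm_bounded h3 fun p => ?_
  refine (RR_diff ht p τ h1 h12).trans (le_of_eq ?_)
  ring

lemma Rs_bound (χ : DirichletCharacter ℂ q) (τ : ℝ) {ε : ℝ} (h1 : 0 ≤ ε) :
    ‖Rs w N B P χ τ ε‖ ≤ C2 * N := by
  have ht := tX_WB (tt_WB (N := N) (w := w) (B := B) (S := range P)) χ
  have h2 : Summable fun n : ℕ => 2 / (n : ℝ) ^ 2 := by
    refine ((Real.summable_one_div_nat_pow.2 one_lt_two).mul_left 2).congr fun n => ?_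
    ring
  unfold Rs
  refine tsum_of_norm_bounded (h2.hasSum.mul_right (N : ℝ)) fun p => ?_
  refine (RR_bound ht p ?_).trans (le_of_eq ?_)
  · rw [Complex.add_re, sp_re, Complex.ofReal_re]
    linarith
  · ring

end

/-- The weights of the scale between `ε₁` and `ε₂`. -/
noncomputable def WW (ε₁ ε₂ : ℝ) (n : ℕ) : ℝ :=
  if n.Prime then (Real.exp (-ε₁ * Real.log n) - Real.exp (-ε₂ * Real.log n)) / n else 0

lemma WW_nonneg {ε₁ ε₂ : ℝ} (h12 : ε₁ ≤ ε₂) (n : ℕ) : 0 ≤ WW ε₁ ε₂ n := by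
  unfold WW
  split_ifs
  · have := Real.log_natCast_nonneg n
    refine div_nonneg (sub_nonneg.2 (Real.exp_le_exp.2 ?_)) (Nat.cast_nonneg _)
    nlinarith
  · exact le_rfl

/-- The twists. -/
noncomputable def xt {q : ℕ} (χ : DirichletCharacter ℂ q) (τ : ℝ) (n : ℕ) : ℂ :=
  χ (n : ZMod q) * Complex.exp (-(τ * Real.log n) * Complex.I)

lemma norm_xt {q : ℕ} (χ : DirichletCharacter ℂ q) (τ : ℝ) (n : ℕ) : ‖xt χ τ n‖ ≤ 1 := by
  unfold xt
  have h1 : (-((τ : ℂ) * ((Real.log n : ℝ) : ℂ)) * Complex.I) =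
      ((-(τ * Real.log n) : ℝ) : ℂ) * Complex.I := by
    push_cast
    ring
  rw [norm_mul, h1, Complex.norm_exp_ofReal_mul_I, mul_one]
  exact χ.norm_le_one _

end Pool.Agent.R385.DT
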