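import Pool.Agent.R385.DT.Wt

/-!
# The sums over a scale
-/

set_option autoImplicit false

namespace Pool.Agent.R385.DT

open Filter Topology Finset Pool.Agent.W350.Edge Pool.Agent.R385.MC Polynomial

lemma re_aux (ε τ L : ℝ) : (-((ε : ℂ) + τ * Complex.I) * (L : ℂ)).re = -ε * L := by
  rw [Complex.re_mul_ofReal, Complex.neg_re, Complex.add_re, Complex.ofReal_re,
    Complex.re_ofReal_mul, Complex.I_re, mul_zero, add_zero]

/-- The term of the sum at the distance `ε`. -/
lemma gsum_summable {a : ℕ → ℂ} {D : ℝ} (ha : ∀ n, ‖a n‖ ≤ D) {ε : ℝ} (hε : 0 < ε) (τ : ℝ) :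
    Summable fun n : ℕ => if n.Prime then a n / n *
      Complex.exp (-(ε + τ * Complex.I) * Real.log n) else 0 := by
  have hD : 0 ≤ D := (norm_nonneg _).trans (ha 0)
  refine Summable.of_norm_bounded
    ((Real.summable_one_div_nat_rpow.2 (by linarith : 1 < 1 + ε)).mul_left D) fun n => ?_
  split_ifs with hp
  · have hp0 : (0 : ℝ) < n := by exact_mod_cast hp.pos
    rw [norm_mul, norm_div, Complex.norm_natCast, Complex.norm_exp]
    have h1 := re_aux ε τ (Real.log n)
    have h2 : Real.exp (-ε * Real.log n) = (n : ℝ) ^ (-ε) := by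
      rw [Real.rpow_def_of_pos hp0, mul_comm]
    rw [h1, h2]
    have h3 : 1 / (n : ℝ) ^ (1 + ε) = 1 / n * (n : ℝ) ^ (-ε) := by
      rw [one_div, ← Real.rpow_neg hp0.le, one_div, ← Real.rpow_neg_one, ← Real.rpow_add hp0]
      congr 1
      ring
    rw [h3]
    calc ‖a n‖ / n * (n : ℝ) ^ (-ε) ≤ D / n * (n : ℝ) ^ (-ε) := by
          have := ha n
          gcongr
      _ = D * (1 / n * (n : ℝ) ^ (-ε)) := by ring
  · rw [norm_zero]
    positivity

lemma gg_eq_ite (a : ℕ → ℂ) (ε τ : ℝ) :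
    gg a (τ - Complex.I * ε) = ∑' n : ℕ, if n.Prime then a n / n *
      Complex.exp (-(ε + τ * Complex.I) * Real.log n) else 0 := by
  unfold gg
  refine tsum_congr fun n => ?_
  unfold cf
  split_ifs
  · congr 2
    linear_combination ((Real.log n : ℝ) : ℂ) * (ε : ℂ) * Complex.I_mul_I
  · rw [zero_mul]

lemma WW_summable {ε₁ ε₂ : ℝ} (h1 : 0 < ε₁) (h12 : ε₁ ≤ ε₂) : Summable (WW ε₁ ε₂) := by
  have h2 := gsum_summable (a := fun _ => 1) (D := 1) (fun _ => by simp) h1 0
  refine Summable.of_norm_bounded (g := fun n => ‖if n.Prime then (1 : ℂ) / n *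
      Complex.exp (-(ε₁ + (0 : ℝ) * Complex.I) * Real.log n) else 0‖) h2.norm fun n => ?_
  rw [Real.norm_of_nonneg (WW_nonneg h12 n)]
  unfold WW
  split_ifs with hp
  · have hp0 : (0 : ℝ) < n := by exact_mod_cast hp.pos
    rw [norm_mul, norm_div, norm_one, Complex.norm_natCast, Complex.norm_exp]
    have h3 := re_aux ε₁ 0 (Real.log n)
    rw [h3, one_div, div_eq_mul_inv, mul_comm]
    have := Real.exp_pos (-ε₂ * Real.log n)
    refine mul_le_mul_of_nonneg_left (by linarith) (by positivity)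
  · simp

/-- The difference of the sums at the distances `ε₁` and `ε₂`. -/
lemma Gs_sub {q : ℕ} {a : ℕ → ℂ} {D : ℝ} (ha : ∀ n, ‖a n‖ ≤ D) (χ : DirichletCharacter ℂ q) (τ : ℝ)
    {ε₁ ε₂ : ℝ} (h1 : 0 < ε₁) (h12 : ε₁ ≤ ε₂) :
    Gs a χ τ ε₁ - Gs a χ τ ε₂ = ∑' n, (WW ε₁ ε₂ n : ℂ) * (a n * xt χ τ n) := by
  have hD : 0 ≤ D := (norm_nonneg _).trans (ha 0)
  have hs : ∀ ε : ℝ, 0 < ε → Summable fun n : ℕ => if n.Prime then a n / n * χ (n : ZMod q) *
      Complex.exp (-(ε + τ * Complex.I) * Real.log n) else 0 := by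
    intro ε hε
    refine (gsum_summable (a := fun n => a n * χ (n : ZMod q)) (D := D) (fun n => ?_) hε τ).congr
      fun n => ?_
    · rw [norm_mul]
      exact (mul_le_of_le_one_right (norm_nonneg _) (χ.norm_le_one _)).trans (ha n)
    · split_ifs
      · ring
      · rfl
  unfold Gs
  rw [← (hs ε₁ h1).tsum_sub (hs ε₂ (h1.trans_le h12))]
  refine tsum_congr fun n => ?_
  unfold WW xt
  split_ifs with hp
  · have e1 : ∀ ε : ℝ, Complex.exp (-(ε + τ * Complex.I) * Real.log n) =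
        ((Real.exp (-ε * Real.log n) : ℝ) : ℂ) *
          Complex.exp (-(τ * Real.log n) * Complex.I) := by
      intro ε
      rw [Complex.ofReal_exp, ← Complex.exp_add]
      congr 1
      push_cast
      ring
    rw [e1, e1]
    push_cast
    ring
  · simp

/-- The mass of a scale. -/
lemma mass {μ : ℝ} (hμ : 0 < μ) : ∃ r : ℝ, 0 < r ∧ ∀ ε₁ ε₂ : ℝ, 0 < ε₁ → ε₁ ≤ ε₂ → ε₂ ≤ r →
    ∑' n, WW ε₁ ε₂ n ≤ Real.log (ε₂ / ε₁) + μ := by
  obtain ⟨κ, hκ, -⟩ := TA.zeta_both
  have h1 := hκ.eventually (Metric.ball_mem_nhds (κ : ℂ) (by positivity : 0 < μ / 2))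
  rw [eventually_nhdsWithin_iff, Metric.eventually_nhds_iff_ball] at h1
  obtain ⟨r, hr, hall⟩ := h1
  refine ⟨r / 2, by positivity, fun ε₁ ε₂ h1 h12 h2 => ?_⟩
  have h20 : 0 < ε₂ := h1.trans_le h12
  have hb : ∀ ε : ℝ, 0 < ε → ε ≤ r / 2 →
      |(gg TA.az (-(Complex.I * ε))).re + Real.log ε - κ| < μ / 2 := by
    intro ε h3 h4
    have h5 := hall ε (by
      rw [Metric.mem_ball, Real.dist_eq, sub_zero, abs_of_pos h3]
      linarith) h3
    rw [dist_eq_norm] at h5
    have h6 := Complex.abs_re_le_norm (gg TA.az (-(Complex.I * ε)) + Real.log ε - κ)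
    simp only [Complex.sub_re, Complex.add_re, Complex.ofReal_re] at h6
    exact h6.trans_lt h5
  have h3 := hb ε₁ h1 (h12.trans h2)
  have h4 := hb ε₂ h20 h2
  have hgg : ∀ ε : ℝ, gg TA.az (-(Complex.I * ε)) = ∑' n : ℕ, if n.Prime then (1 : ℂ) / n *
      Complex.exp (-(ε + (0 : ℝ) * Complex.I) * Real.log n) else 0 := by
    intro ε
    have h5 := gg_eq_ite TA.az ε 0
    rw [Complex.ofReal_zero, zero_sub] at h5
    rw [h5]
    refine tsum_congr fun n => ?_
    split_ifs with hp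
    · rw [TA.az_prime hp, Complex.ofReal_zero]
    · rfl
  have h5 : ((∑' n, WW ε₁ ε₂ n : ℝ) : ℂ) =
      gg TA.az (-(Complex.I * ε₁)) - gg TA.az (-(Complex.I * ε₂)) := by
    rw [hgg, hgg, Complex.ofReal_tsum,
      ← (gsum_summable (a := fun _ => 1) (D := 1) (fun _ => by simp) h1 0).tsum_sub
      (gsum_summable (a := fun _ => 1) (D := 1) (fun _ => by simp) h20 0)]
    refine tsum_congr fun n => ?_
    unfold WW
    split_ifs
    · push_cast
      simp only [zero_mul, add_zero]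
      ring
    · simp
  have h6 : ∑' n, WW ε₁ ε₂ n =
      (gg TA.az (-(Complex.I * ε₁))).re - (gg TA.az (-(Complex.I * ε₂))).re := by
    rw [← Complex.sub_re, ← h5, Complex.ofReal_re]
  rw [h6, Real.log_div h20.ne' h1.ne']
  rw [abs_lt] at h3 h4
  linarith [h3.2, h4.1]

/-- The trivial bound. -/
lemma Gs_trivial : ∃ C : ℝ, 0 ≤ C ∧ ∀ (q : ℕ) (a : ℕ → ℂ) (D : ℝ), (∀ n, ‖a n‖ ≤ D) →
    ∀ (χ : DirichletCharacter ℂ q) (τ ε : ℝ), 0 < ε → ε ≤ 1 →
      ‖Gs a χ τ ε‖ ≤ D * (Real.log (1 / ε) + C) := by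
  obtain ⟨κ, hκ, -⟩ := TA.zeta_both
  have h1 := hκ.eventually (Metric.ball_mem_nhds (κ : ℂ) one_pos)
  rw [eventually_nhdsWithin_iff, Metric.eventually_nhds_iff_ball] at h1
  obtain ⟨r, hr, hall⟩ := h1
  set Z : ℝ → ℝ := fun ε => ∑' n : ℕ, (if n.Prime then (n : ℝ)⁻¹ * Real.exp (-ε * Real.log n)
    else 0) with hZ
  have hZs : ∀ ε : ℝ, 0 < ε → Summable fun n : ℕ =>
      (if n.Prime then (n : ℝ)⁻¹ * Real.exp (-ε * Real.log n) else 0) := by
    intro ε hε
    refine Summable.of_norm_bounded (g := fun n => ‖if n.Prime then (1 : ℂ) / n *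
      Complex.exp (-(ε + (0 : ℝ) * Complex.I) * Real.log n) else 0‖)
      (gsum_summable (a := fun _ => 1) (D := 1) (fun _ => by simp) hε 0).norm fun n => ?_
    split_ifs
    · rw [norm_mul, norm_mul, norm_inv, Real.norm_natCast, norm_div, norm_one,
        Complex.norm_natCast, Complex.norm_exp]
      have h3 := re_aux ε 0 (Real.log n)
      rw [h3, one_div, Real.norm_of_nonneg (Real.exp_pos _).le]
    · simp
  have hZr : ∀ ε : ℝ, 0 < ε → (Z ε : ℂ) = gg TA.az (-(Complex.I * ε)) := by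
    intro ε hε
    have h5 := gg_eq_ite TA.az ε 0
    rw [Complex.ofReal_zero, zero_sub] at h5
    rw [h5, hZ, Complex.ofReal_tsum]
    refine tsum_congr fun n => ?_
    split_ifs with hp
    · rw [TA.az_prime hp, zero_mul, add_zero]
      push_cast
      rw [one_div]
    · simp
  have hanti : ∀ ε₁ ε₂ : ℝ, 0 < ε₁ → ε₁ ≤ ε₂ → Z ε₂ ≤ Z ε₁ := by
    intro ε₁ ε₂ h2 h3
    refine Summable.tsum_le_tsum (fun n => ?_) (hZs _ (h2.trans_le h3)) (hZs _ h2)
    split_ifs
    · have := Real.log_natCast_nonneg n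
      refine mul_le_mul_of_nonneg_left (Real.exp_le_exp.2 ?_) (by positivity)
      nlinarith
    · exact le_rfl
  have hZ0 : ∀ ε : ℝ, 0 ≤ Z ε := fun ε => tsum_nonneg fun n => by
    split_ifs <;> positivity
  set r' := min (r / 2) 1 with hr'
  have hr'0 : 0 < r' := by positivity
  refine ⟨Z r' + |κ| + 1, by have := hZ0 r'; positivity, ?_⟩
  intro q a D ha χ τ ε hε hε1
  have hD : 0 ≤ D := (norm_nonneg _).trans (ha 0)
  have hlog : 0 ≤ Real.log (1 / ε) := Real.log_nonneg (by rw [le_div_iff₀ hε]; linarith)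
  have h2 : ‖Gs a χ τ ε‖ ≤ D * Z ε := by
    unfold Gs
    refine tsum_of_norm_bounded ((hZs ε hε).hasSum.mul_left D) fun n => ?_
    split_ifs
    · rw [norm_mul, norm_mul, norm_div, Complex.norm_natCast, Complex.norm_exp]
      have h3 := re_aux ε τ (Real.log n)
      rw [h3, div_eq_mul_inv]
      have h4 := χ.norm_le_one ((n : ℕ) : ZMod q)
      calc ‖a n‖ * (n : ℝ)⁻¹ * ‖χ (n : ZMod q)‖ * Real.exp (-ε * Real.log n)
          ≤ D * (n : ℝ)⁻¹ * 1 * Real.exp (-ε * Real.log n) := by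
            have := ha n
            gcongr
        _ = D * ((n : ℝ)⁻¹ * Real.exp (-ε * Real.log n)) := by ring
    · simp
  refine h2.trans (mul_le_mul_of_nonneg_left ?_ hD)
  rcases le_or_gt ε r' with h3 | h3
  · have h4 : ε < r := by
      have : r' ≤ r / 2 := min_le_left _ _
      linarith
    have h5 := hall ε (by
      rw [Metric.mem_ball, Real.dist_eq, sub_zero, abs_of_pos hε]
      exact h4) hε
    rw [dist_eq_norm, ← hZr ε hε, ← Complex.ofReal_add, ← Complex.ofReal_sub, Complex.norm_real,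
      Real.norm_eq_abs, abs_lt] at h5
    rw [one_div, Real.log_inv]
    have h6 := le_abs_self κ
    have h7 := hZ0 r'
    linarith [h5.2]
  · have h4 := hanti r' ε hr'0 h3.le
    have h6 := abs_nonneg κ
    linarith

/-- The correlation of two twists. -/
lemma corr (x y : Ch) (τ τ' : ℝ) {ε₁ ε₂ : ℝ} (h1 : 0 < ε₁) (h12 : ε₁ ≤ ε₂) :
    ∑' n, (WW ε₁ ε₂ n : ℂ) * (xt x.2 τ n * (starRingEnd ℂ) (xt y.2 τ' n)) =
      LSeries (prF fun n => pr x y n) (1 + ε₁ + ((τ - τ' : ℝ) : ℂ) * Complex.I) -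
      LSeries (prF fun n => pr x y n) (1 + ε₂ + ((τ - τ' : ℝ) : ℂ) * Complex.I) := by
  have hs : ∀ ε : ℝ, 0 < ε → Summable (LSeries.term (prF fun n => pr x y n)
      (1 + ε + ((τ - τ' : ℝ) : ℂ) * Complex.I)) := by
    intro ε hε
    refine summable_bdd (norm_prF_le zero_le_one fun n => (pr x y).norm_le_one _) ?_
    simp only [Complex.add_re, Complex.one_re, Complex.ofReal_re, Complex.mul_re, Complex.I_re,
      mul_zero, Complex.ofReal_im, Complex.I_im, mul_one, sub_self, add_zero]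
    linarith
  unfold LSeries
  rw [← (hs ε₁ h1).tsum_sub (hs ε₂ (h1.trans_le h12))]
  refine tsum_congr fun n => ?_
  rcases eq_or_ne n 0 with rfl | hn
  · simp [WW, Nat.not_prime_zero]
  · rw [LSeries.term_of_ne_zero hn, LSeries.term_of_ne_zero hn]
    unfold WW prF
    by_cases hp : n.Prime
    · simp only [if_pos hp]
      rw [pr_apply]
      have hnc : (n : ℂ) ≠ 0 := by exact_mod_cast hn
      have hn0 : (0 : ℝ) < n := by exact_mod_cast hp.pos
      have hlog : Complex.log (n : ℂ) = ((Real.log n : ℝ) : ℂ) := by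
        rw [← Complex.ofReal_natCast, Complex.ofReal_log hn0.le]
      have e1 : ∀ ε : ℝ, (n : ℂ) ^ ((1 : ℂ) + ε + ((τ - τ' : ℝ) : ℂ) * Complex.I) =
          n * (Complex.exp (-(ε * Real.log n)) * Complex.exp (-(τ * Real.log n) * Complex.I) *
            Complex.exp (τ' * Real.log n * Complex.I))⁻¹ := by
        intro ε
        rw [add_assoc, Complex.cpow_add _ _ hnc, Complex.cpow_one, Complex.cpow_def_of_ne_zero hnc,
          hlog, ← Complex.exp_add, ← Complex.exp_add, ← Complex.exp_neg]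
        congr 2
        push_cast
        ring
      rw [e1, e1]
      unfold xt
      have e2 : (starRingEnd ℂ) (Complex.exp (-(τ' * Real.log n) * Complex.I)) =
          Complex.exp (τ' * Real.log n * Complex.I) := by
        rw [← Complex.exp_conj]
        congr 1
        simp only [map_mul, map_neg, Complex.conj_ofReal, Complex.conj_I]
        ring
      rw [map_mul, e2]
      have e3 : (((Real.exp (-ε₁ * Real.log n) - Real.exp (-ε₂ * Real.log n)) / n : ℝ) : ℂ) =
          (Complex.exp (-(ε₁ * Real.log n)) - Complex.exp (-(ε₂ * Real.log n))) / n := by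
        push_cast
        simp only [neg_mul]
      rw [e3]
      have e4 := Complex.exp_ne_zero (-(ε₁ * Real.log n : ℂ))
      have e5 := Complex.exp_ne_zero (-(ε₂ * Real.log n : ℂ))
      field_simp
    · rw [if_neg hp, if_neg hp]
      simp

end Pool.Agent.R385.DT
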